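import Pool.Agent.W373.Unif.CombFN

set_option autoImplicit false

namespace Pool.Agent.W373.Unif

/-! ## relations given by lists -/

section Rel
variable {W : Type} [Fintype W] [DecidableEq W]

/-- integer relation given by a list -/
def relOf (l : List (W × ℤ)) (w : W) : ℤ := (l.map fun e => if e.1 = w then e.2 else 0).sum

theorem sum_relOf {k : Type} [Field k] (l : List (W × ℤ)) (F : W → k) :
    ∑ w, ((relOf l w : ℤ) : k) * F w = (l.map fun e => (e.2 : k) * F e.1).sum := by
  induction l with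
  | nil => simp [relOf]
  | cons e l ih =>
    have : ∀ w, ((relOf (e :: l) w : ℤ) : k) * F w =
        (if e.1 = w then (e.2 : k) * F w else 0) + ((relOf l w : ℤ) : k) * F w := by
      intro w
      simp only [relOf, List.map_cons, List.sum_cons]
      push_cast
      split_ifs <;> ring
    rw [Finset.sum_congr rfl (fun w _ => this w), Finset.sum_add_distrib, ih]
    simp

theorem mem_solZ_rel {ι k : Type} [Field k] (r : ι → List (W × ℤ)) (F : W → k) :
    F ∈ solZ (fun i => relOf (r i)) k ↔ ∀ i, ((r i).map fun e => (e.2 : k) * F e.1).sum = 0 := by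
  constructor
  · intro h i
    rw [← sum_relOf]; exact h i
  · intro h i
    have := h i
    rw [← sum_relOf] at this
    exact this

end Rel

/-! ## the spaces attached to supports -/

section Sp
variable (k : Type) [Field k]

/-- functions in `C2` supported on `A2` -/
def S2 (A2 : Finset W2) : Submodule k (W2 → k) where
  carrier := {F | F ∈ C2 k ∧ ∀ w, w ∉ A2 → F w = 0}
  add_mem' := fun hF hG => ⟨(C2 k).add_mem hF.1 hG.1, fun w hw => by
    simp only [Pi.add_apply, hF.2 w hw, hG.2 w hw, add_zero]⟩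
  zero_mem' := ⟨(C2 k).zero_mem, fun _ _ => rfl⟩
  smul_mem' := fun t _ hF => ⟨(C2 k).smul_mem t hF.1, fun w hw => by
    simp only [Pi.smul_apply, hF.2 w hw, smul_zero]⟩

/-- functions in `D3 (S2 A2)` supported on `A3` -/
def S3 (A2 : Finset W2) (A3 : Finset W3) : Submodule k (W3 → k) where
  carrier := {F | F ∈ D3 (S2 k A2) ∧ ∀ w, w ∉ A3 → F w = 0}
  add_mem' := fun hF hG => ⟨(D3 (S2 k A2)).add_mem hF.1 hG.1, fun w hw => by
    simp only [Pi.add_apply, hF.2 w hw, hG.2 w hw, add_zero]⟩
  zero_mem' := ⟨(D3 (S2 k A2)).zero_mem, fun _ _ => rfl⟩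
  smul_mem' := fun t _ hF => ⟨(D3 (S2 k A2)).smul_mem t hF.1, fun w hw => by
    simp only [Pi.smul_apply, hF.2 w hw, smul_zero]⟩

end Sp

/-- relations of `S2` -/
def rel2 (A2 : Finset W2) : W2 ⊕ W2 → List (W2 × ℤ)
  | Sum.inl (a, b) => [((a, b), 1), ((b, a), 1)]
  | Sum.inr w => if w ∈ A2 then [] else [(w, 1)]

/-- relations of `S3` -/
def rel3 (A2 : Finset W2) (A3 : Finset W3) : W3 ⊕ W3 ⊕ W3 ⊕ W3 → List (W3 × ℤ)
  | Sum.inl (a, b, c) => [((a, b, c), 1), ((a, c, b), 1)]
  | Sum.inr (Sum.inl (a, b, c)) => [((a, b, c), 1), ((b, c, a), 1), ((c, a, b), 1)]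
  | Sum.inr (Sum.inr (Sum.inl (x, w))) => if w ∈ A2 then [] else [((x, w), 1)]
  | Sum.inr (Sum.inr (Sum.inr w)) => if w ∈ A3 then [] else [(w, 1)]

/-- relations of `D4 (S3 A2 A3)` -/
def rel4 (A2 : Finset W2) (A3 : Finset W3) : W4 ⊕ W4 ⊕ W4 ⊕ W4 ⊕ W4 → List (W4 × ℤ)
  | Sum.inl (x, a, b, c) => [((x, a, b, c), 1), ((x, a, c, b), 1)]
  | Sum.inr (Sum.inl (x, a, b, c)) => [((x, a, b, c), 1), ((x, b, c, a), 1), ((x, c, a, b), 1)]
  | Sum.inr (Sum.inr (Sum.inl (a, b, c, d))) =>
      [((a, b, c, d), 1), ((b, a, c, d), -1), ((c, d, a, b), 1), ((d, c, a, b), -1)]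
  | Sum.inr (Sum.inr (Sum.inr (Sum.inl (x, y, w)))) => if w ∈ A2 then [] else [((x, y, w), 1)]
  | Sum.inr (Sum.inr (Sum.inr (Sum.inr (x, w)))) => if w ∈ A3 then [] else [((x, w), 1)]

section
variable {k : Type} [Field k]

theorem S2_eq (A2 : Finset W2) : S2 k A2 = solZ (fun i => relOf (rel2 A2 i)) k := by
  ext F
  rw [mem_solZ_rel]
  constructor
  · rintro ⟨h1, h2⟩ (⟨a, b⟩ | w)
    · have := h1 a b
      simp only [rel2, List.map_cons, List.map_nil, List.sum_cons, List.sum_nil]
      push_cast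
      linear_combination this
    · simp only [rel2]
      split_ifs with h
      · simp
      · simp [h2 w h]
  · intro h
    refine ⟨fun a b => ?_, fun w hw => ?_⟩
    · have := h (Sum.inl (a, b))
      simp only [rel2, List.map_cons, List.map_nil, List.sum_cons, List.sum_nil] at this
      push_cast at this
      linear_combination this
    · have := h (Sum.inr w)
      simp only [rel2, if_neg hw, List.map_cons, List.map_nil, List.sum_cons, List.sum_nil] at this
      push_cast at this
      linear_combination this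

theorem S3_eq (A2 : Finset W2) (A3 : Finset W3) :
    S3 k A2 A3 = solZ (fun i => relOf (rel3 A2 A3 i)) k := by
  ext F
  rw [mem_solZ_rel]
  constructor
  · rintro ⟨⟨h1, h2⟩, h3⟩ (⟨a, b, c⟩ | ⟨a, b, c⟩ | ⟨x, w⟩ | w)
    · have := h1.1 a b c
      simp only [rel3, List.map_cons, List.map_nil, List.sum_cons, List.sum_nil]
      push_cast
      linear_combination this
    · have := h1.2 a b c
      simp only [rel3, List.map_cons, List.map_nil, List.sum_cons, List.sum_nil]
      push_cast
      linear_combination this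
    · simp only [rel3]
      split_ifs with h
      · simp
      · have := (h2 x).2 w h
        simp [this]
    · simp only [rel3]
      split_ifs with h
      · simp
      · simp [h3 w h]
  · intro h
    have e1 : ∀ a b c : X, F (a, b, c) + F (a, c, b) = 0 := by
      intro a b c
      have := h (Sum.inl (a, b, c))
      simp only [rel3, List.map_cons, List.map_nil, List.sum_cons, List.sum_nil] at this
      push_cast at this
      linear_combination this
    refine ⟨⟨⟨e1, fun a b c => ?_⟩, fun x => ⟨fun a b => e1 x a b, fun w hw => ?_⟩⟩,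
      fun w hw => ?_⟩
    · have := h (Sum.inr (Sum.inl (a, b, c)))
      simp only [rel3, List.map_cons, List.map_nil, List.sum_cons, List.sum_nil] at this
      push_cast at this
      linear_combination this
    · have := h (Sum.inr (Sum.inr (Sum.inl (x, w))))
      simp only [rel3, if_neg hw, List.map_cons, List.map_nil, List.sum_cons, List.sum_nil] at this
      push_cast at this
      change F (x, w) = 0
      linear_combination this
    · have := h (Sum.inr (Sum.inr (Sum.inr w)))
      simp only [rel3, if_neg hw, List.map_cons, List.map_nil, List.sum_cons, List.sum_nil] at this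
      push_cast at this
      linear_combination this

theorem S4_eq (A2 : Finset W2) (A3 : Finset W3) :
    D4 (S3 k A2 A3) = solZ (fun i => relOf (rel4 A2 A3 i)) k := by
  ext F
  rw [mem_solZ_rel]
  constructor
  · rintro ⟨⟨h1, h2⟩, h3⟩ (⟨x, a, b, c⟩ | ⟨x, a, b, c⟩ | ⟨a, b, c, d⟩ | ⟨x, y, w⟩ | ⟨x, w⟩)
    · have := (h1 x).1 a b c
      simp only [rel4, List.map_cons, List.map_nil, List.sum_cons, List.sum_nil]
      push_cast
      linear_combination this
    · have := (h1 x).2 a b c
      simp only [rel4, List.map_cons, List.map_nil, List.sum_cons, List.sum_nil]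
      push_cast
      linear_combination this
    · have := h2 a b c d
      simp only [rel4, List.map_cons, List.map_nil, List.sum_cons, List.sum_nil]
      push_cast
      linear_combination this
    · simp only [rel4]
      split_ifs with h
      · simp
      · have := ((h3 x).1.2 y).2 w h
        simp [this]
    · simp only [rel4]
      split_ifs with h
      · simp
      · have := (h3 x).2 w h
        simp [this]
  · intro h
    have e1 : ∀ x a b c : X, F (x, a, b, c) + F (x, a, c, b) = 0 := by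
      intro x a b c
      have := h (Sum.inl (x, a, b, c))
      simp only [rel4, List.map_cons, List.map_nil, List.sum_cons, List.sum_nil] at this
      push_cast at this
      linear_combination this
    have e2 : ∀ x a b c : X, F (x, a, b, c) + F (x, b, c, a) + F (x, c, a, b) = 0 := by
      intro x a b c
      have := h (Sum.inr (Sum.inl (x, a, b, c)))
      simp only [rel4, List.map_cons, List.map_nil, List.sum_cons, List.sum_nil] at this
      push_cast at this
      linear_combination this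
    refine ⟨⟨fun x => ⟨e1 x, e2 x⟩, fun a b c d => ?_⟩, fun x => ⟨⟨⟨e1 x, e2 x⟩, fun y =>
      ⟨fun a b => e1 x y a b, fun w hw => ?_⟩⟩, fun w hw => ?_⟩⟩
    · have := h (Sum.inr (Sum.inr (Sum.inl (a, b, c, d))))
      simp only [rel4, List.map_cons, List.map_nil, List.sum_cons, List.sum_nil] at this
      push_cast at this
      linear_combination this
    · have := h (Sum.inr (Sum.inr (Sum.inr (Sum.inl (x, y, w)))))
      simp only [rel4, if_neg hw, List.map_cons, List.map_nil, List.sum_cons, List.sum_nil] at this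
      push_cast at this
      change F (x, y, w) = 0
      linear_combination this
    · have := h (Sum.inr (Sum.inr (Sum.inr (Sum.inr (x, w)))))
      simp only [rel4, if_neg hw, List.map_cons, List.map_nil, List.sum_cons, List.sum_nil] at this
      push_cast at this
      change F (x, w) = 0
      linear_combination this

/-! ## stability and supports -/

/-- content closed and rotation invariant -/
def Good {W : Type} (wt : W → ℕ) (r : W → W) (A : Finset W) : Prop :=
  (∀ w w', wt w = wt w' → w ∈ A → w' ∈ A) ∧ ∀ w, r w ∈ A ↔ w ∈ A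

theorem supp_good {W : Type} {wt : W → ℕ} {g : ℕ → ℕ} {r : W → W} (hr : r^[5] = id)
    (hg : ∀ w, wt (r w) = g (wt w))
    {V : Submodule k (W → k)} (hR : StabR r V) {A : Finset W} (hA : supp wt V = (A : Set W)) :
    Good wt r A := by
  have hmem : ∀ w, w ∈ A ↔ w ∈ supp wt V := by
    intro w; rw [hA]; rfl
  refine ⟨fun w w' h hw => ?_, fun w => ⟨fun h => ?_, fun h => ?_⟩⟩
  · rw [hmem] at hw ⊢
    obtain ⟨F, hF, u, hu, hne⟩ := hw
    exact ⟨F, hF, u, hu.trans h, hne⟩
  · rw [hmem] at h ⊢
    obtain ⟨F, hF, u, hu, hne⟩ := h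
    refine ⟨_, hR.iter hF 1, r^[4] u, ?_, ?_⟩
    · rw [wt_iter hg, hu, ← wt_iter hg]
      have : r^[4] (r w) = r^[5] w := (Function.iterate_succ_apply r 4 w).symm
      rw [this, hr]; rfl
    · change F (r^[1] (r^[4] u)) ≠ 0
      rw [← Function.iterate_add_apply]
      change F (r^[5] u) ≠ 0
      rw [hr]; exact hne
  · rw [hmem] at h ⊢
    obtain ⟨F, hF, u, hu, hne⟩ := h
    refine ⟨_, hR.iter hF 4, r u, ?_, ?_⟩
    · rw [hg, hg, hu]
    · change F (r^[4] (r u)) ≠ 0
      have : r^[4] (r u) = r^[5] u := (Function.iterate_succ_apply r 4 u).symm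
      rw [this, hr]; exact hne

theorem S2_stabT (A2 : Finset W2) : StabT wt2 (S2 k A2) := by
  intro F hF j
  refine ⟨stabT_C2 k F hF.1 j, fun w hw => ?_⟩
  simp only [hF.2 w hw, ite_self]

theorem S3_stabT (A2 : Finset W2) (A3 : Finset W3) : StabT wt3 (S3 k A2 A3) := by
  intro F hF j
  refine ⟨stabT_D3 (S2_stabT A2) F hF.1 j, fun w hw => ?_⟩
  simp only [hF.2 w hw, ite_self]

theorem S2_stabR {A2 : Finset W2} (h : Good wt2 rot2 A2) : StabR rot2 (S2 k A2) := by
  intro F hF
  exact ⟨stabR_C2 k F hF.1, fun w hw => hF.2 _ fun h' => hw ((h.2 w).1 h')⟩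

theorem S3_stabR {A2 : Finset W2} {A3 : Finset W3} (h : Good wt2 rot2 A2)
    (h' : Good wt3 rot3 A3) : StabR rot3 (S3 k A2 A3) := by
  intro F hF
  exact ⟨stabR_D3 (S2_stabR h) F hF.1, fun w hw => hF.2 _ fun h1 => hw ((h'.2 w).1 h1)⟩

theorem S_pair {A2 : Finset W2} {A3 : Finset W3} (h : Good wt2 rot2 A2)
    (h' : Good wt3 rot3 A3) : IsPair (S2 k A2) (S3 k A2 A3) :=
  ⟨fun _ hF => hF.1, S2_stabT A2, S2_stabR h, fun _ hF => hF.1, S3_stabT A2 A3, S3_stabR h h'⟩

theorem S2_supp {A2 : Finset W2} (h : Good wt2 rot2 A2) : supp wt2 (S2 k A2) ⊆ A2 := by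
  rintro w ⟨F, hF, u, hu, hne⟩
  have : u ∈ A2 := by
    by_contra hcon
    exact hne (hF.2 u hcon)
  exact h.1 u w hu this

theorem S3_supp {A2 : Finset W2} {A3 : Finset W3} (h : Good wt3 rot3 A3) :
    supp wt3 (S3 k A2 A3) ⊆ A3 := by
  rintro w ⟨F, hF, u, hu, hne⟩
  have : u ∈ A3 := by
    by_contra hcon
    exact hne (hF.2 u hcon)
  exact h.1 u w hu this

/-- the support contains `w` iff removing its content class lowers the dimension -/
theorem mem_supp2 (A2 : Finset W2) (w : W2) : w ∈ supp wt2 (S2 k A2) ↔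
    Module.finrank k (S2 k (A2.filter fun u => wt2 u ≠ wt2 w)) < Module.finrank k (S2 k A2) := by
  have hle : S2 k (A2.filter fun u => wt2 u ≠ wt2 w) ≤ S2 k A2 := by
    intro F hF
    refine ⟨hF.1, fun u hu => hF.2 u fun h => hu (Finset.mem_filter.1 h).1⟩
  constructor
  · rintro ⟨F, hF, u, hu, hne⟩
    apply Submodule.finrank_lt_finrank_of_lt
    refine lt_of_le_of_ne hle fun heq => ?_
    rw [← heq] at hF
    exact hne (hF.2 u fun h => (Finset.mem_filter.1 h).2 hu)
  · intro hlt
    by_contra hcon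
    have : S2 k A2 ≤ S2 k (A2.filter fun u => wt2 u ≠ wt2 w) := by
      intro F hF
      refine ⟨hF.1, fun u hu => ?_⟩
      by_contra hne
      apply hu
      have huA : u ∈ A2 := by
        by_contra h
        exact hne (hF.2 u h)
      refine Finset.mem_filter.2 ⟨huA, fun h => hcon ⟨F, hF, u, h, hne⟩⟩
    have := Submodule.finrank_mono this
    omega

theorem mem_supp3 (A2 : Finset W2) (A3 : Finset W3) (w : W3) : w ∈ supp wt3 (S3 k A2 A3) ↔
    Module.finrank k (S3 k A2 (A3.filter fun u => wt3 u ≠ wt3 w)) <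
      Module.finrank k (S3 k A2 A3) := by
  have hle : S3 k A2 (A3.filter fun u => wt3 u ≠ wt3 w) ≤ S3 k A2 A3 := by
    intro F hF
    refine ⟨hF.1, fun u hu => hF.2 u fun h => hu (Finset.mem_filter.1 h).1⟩
  constructor
  · rintro ⟨F, hF, u, hu, hne⟩
    apply Submodule.finrank_lt_finrank_of_lt
    refine lt_of_le_of_ne hle fun heq => ?_
    rw [← heq] at hF
    exact hne (hF.2 u fun h => (Finset.mem_filter.1 h).2 hu)
  · intro hlt
    by_contra hcon
    have : S3 k A2 A3 ≤ S3 k A2 (A3.filter fun u => wt3 u ≠ wt3 w) := by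
      intro F hF
      refine ⟨hF.1, fun u hu => ?_⟩
      by_contra hne
      apply hu
      have huA : u ∈ A3 := by
        by_contra h
        exact hne (hF.2 u h)
      refine Finset.mem_filter.2 ⟨huA, fun h => hcon ⟨F, hF, u, h, hne⟩⟩
    have := Submodule.finrank_mono this
    omega

/-- a full pair is determined by its supports -/
theorem full_eq {V2 : Submodule k (W2 → k)} {V3 : Submodule k (W3 → k)} (hp : IsPair V2 V3)
    (hf : Full V2 V3) {A2 : Finset W2} {A3 : Finset W3} (h2 : supp wt2 V2 = (A2 : Set W2))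
    (h3 : supp wt3 V3 = (A3 : Set W3)) : V2 = S2 k A2 ∧ V3 = S3 k A2 A3 := by
  have m2 : ∀ w, w ∈ A2 ↔ w ∈ supp wt2 V2 := by intro w; rw [h2]; rfl
  have m3 : ∀ w, w ∈ A3 ↔ w ∈ supp wt3 V3 := by intro w; rw [h3]; rfl
  have e2 : V2 = S2 k A2 := by
    apply le_antisymm
    · intro F hF
      refine ⟨hp.le2 hF, fun w hw => ?_⟩
      by_contra hne
      exact hw ((m2 w).2 ⟨F, hF, w, rfl, hne⟩)
    · intro F hF
      apply mem_of_masks wt2 wt2_lt
      intro j
      have hmC : mask wt2 j F ∈ S2 k A2 := S2_stabT A2 F hF j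
      by_cases h0 : mask wt2 j F = 0
      · rw [h0]; exact V2.zero_mem
      · obtain ⟨⟨x, y⟩, hw⟩ := Function.ne_iff.1 h0
        have hj : wt2 (x, y) = j := by
          by_contra hne
          apply hw
          simp only [mask, if_neg hne, Pi.zero_apply]
        have hA : (x, y) ∈ A2 := by
          by_contra hcon
          exact hw (hmC.2 _ hcon)
        obtain ⟨G, hG, u, hu, hGu⟩ := (m2 _).1 hA
        exact mem_V2_of hp.le2 hp.t2 hp.r2 hG hGu (n := 0) hu hmC.1 (by
          intro w hw1
          simp only [mask]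
          rw [if_neg (fun h => hw1 (h.trans hj.symm))])
  refine ⟨e2, ?_⟩
  apply le_antisymm
  · intro F hF
    refine ⟨e2 ▸ hp.le3 hF, fun w hw => ?_⟩
    by_contra hne
    exact hw ((m3 w).2 ⟨F, hF, w, rfl, hne⟩)
  · intro F hF
    refine hf F (e2 ▸ hF.1) fun w hw => hF.2 w fun h => hw ((m3 w).1 h)

theorem S_full {A2 : Finset W2} {A3 : Finset W3} (h3 : supp wt3 (S3 k A2 A3) = (A3 : Set W3)) :
    Full (S2 k A2) (S3 k A2 A3) := by
  intro F hF hs
  refine ⟨hF, fun w hw => hs w fun h => hw ?_⟩
  rw [h3] at h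
  exact h

theorem card_stable (hStab : S_Stab) (hCnt : S_Cnt) [Finite k] {z : k}
    (hz : IsPrimitiveRoot z (5 ^ 6)) {C : Submodule k (W4 → k)} (hT : StabT wt4 C)
    (hR : StabR rot4 C) (c : ℕ) :
    Nat.card {V : Submodule k (W4 → k) // V ≤ C ∧ StabT wt4 V ∧ StabR rot4 V ∧
      Module.finrank k V = c} ≡ (Module.finrank k C).choose c [MOD 5] := by
  refine (hStab k W4 z wt4 rot4 hz wt4_lt wt4_iff rot4_five C hT hR c).trans ?_
  refine hCnt k C z hz ?_ c
  calc Module.finrank k C ≤ Module.finrank k (W4 → k) := Submodule.finrank_le C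
    _ = Fintype.card W4 := Module.finrank_fintype_fun_eq_card k
    _ < 5 ^ 6 := by simp [W4, W3, W2, X]

end

theorem exists_prim (p : ℕ) [hp : Fact p.Prime] (h : p % 5 ^ 6 = 1) :
    ∃ z : ZMod p, IsPrimitiveRoot z (5 ^ 6) := by
  have hd : 5 ^ 6 ∣ Fintype.card (ZMod p)ˣ := by
    rw [ZMod.card_units_eq_totient, Nat.totient_prime hp.out]
    have := hp.out.two_le
    omega
  have hc : IsCyclic (ZMod p)ˣ := inferInstance
  obtain ⟨u, hu⟩ := IsCyclic.exists_ofOrder_eq_natCard (α := (ZMod p)ˣ)
  rw [Nat.card_eq_fintype_card] at hu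
  obtain ⟨m, hm⟩ := hd
  have hprim : IsPrimitiveRoot u (5 ^ 6 * m) := by
    rw [← hm, ← hu]; exact IsPrimitiveRoot.orderOf u
  have h2 : IsPrimitiveRoot (u ^ m) (5 ^ 6) := by
    have := hprim.pow (n := 5 ^ 6 * m) (a := m) (b := 5 ^ 6) (by
      have : 0 < Fintype.card (ZMod p)ˣ := Fintype.card_pos
      omega) (by ring)
    exact this
  exact ⟨((u ^ m : (ZMod p)ˣ) : ZMod p), h2.map_of_injective (f := Units.coeHom (ZMod p))
    Units.val_injective⟩

theorem sum_modEq {ι : Type} (s : Finset ι) (f g : ι → ℕ) (h : ∀ i ∈ s, f i ≡ g i [MOD 5]) :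
    ∑ i ∈ s, f i ≡ ∑ i ∈ s, g i [MOD 5] := by
  classical
  induction s using Finset.induction_on with
  | empty => rfl
  | insert a s ha ih =>
    rw [Finset.sum_insert ha, Finset.sum_insert ha]
    exact Nat.ModEq.add (h a (Finset.mem_insert_self a s))
      (ih fun i hi => h i (Finset.mem_insert_of_mem hi))

open Classical in
theorem combA (hEC : S_EC) (hCnt : S_Cnt) (hStab : S_Stab) : S_CombA := by
  intro s
  choose N2 g2 h2 using fun A2 : Finset W2 => hEC _ _ (fun i => relOf (rel2 A2 i))
  choose N3 g3 h3 using fun A : Finset W2 × Finset W3 =>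
    hEC _ _ (fun i => relOf (rel3 A.1 A.2 i))
  choose N4 g4 h4 using fun A : Finset W2 × Finset W3 =>
    hEC _ _ (fun i => relOf (rel4 A.1 A.2 i))
  let Cond : Finset W2 × Finset W3 → Prop := fun A =>
    Good wt2 rot2 A.1 ∧ Good wt3 rot3 A.2 ∧
    (∀ w ∈ A.1, g2 (A.1.filter fun u => wt2 u ≠ wt2 w) < g2 A.1) ∧
    (∀ w ∈ A.2, g3 (A.1, A.2.filter fun u => wt3 u ≠ wt3 w) < g3 A) ∧ g2 A.1 + g3 A < 5 * s
  let t : Finset W2 × Finset W3 → ℕ := fun A =>
    if Cond A then (g4 A).choose (5 * s - g2 A.1 - g3 A) else 0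
  refine ⟨Finset.univ.sup N2 + Finset.univ.sup N3 + Finset.univ.sup N4,
    ∑ A, t A, fun p hp hpN hp6 => ?_⟩
  have hN2 : ∀ A2, N2 A2 < p := fun A2 =>
    lt_of_le_of_lt ((Finset.le_sup (Finset.mem_univ A2)).trans (by omega)) hpN
  have hN3 : ∀ A, N3 A < p := fun A =>
    lt_of_le_of_lt ((Finset.le_sup (Finset.mem_univ A)).trans (by omega)) hpN
  have hN4 : ∀ A, N4 A < p := fun A =>
    lt_of_le_of_lt ((Finset.le_sup (Finset.mem_univ A)).trans (by omega)) hpN
  have f2 : ∀ A2, Module.finrank (ZMod p) (S2 (ZMod p) A2) = g2 A2 := fun A2 => by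
    rw [S2_eq]; exact h2 A2 p (hN2 A2)
  have f3 : ∀ A2 A3, Module.finrank (ZMod p) (S3 (ZMod p) A2 A3) = g3 (A2, A3) :=
    fun A2 A3 => by rw [S3_eq]; exact h3 (A2, A3) p (hN3 _)
  have f4 : ∀ A2 A3, Module.finrank (ZMod p) (D4 (S3 (ZMod p) A2 A3)) = g4 (A2, A3) :=
    fun A2 A3 => by rw [S4_eq]; exact h4 (A2, A3) p (hN4 _)
  obtain ⟨z, hz⟩ := exists_prim p hp6
  -- the type of full configurations
  let P : Submodule (ZMod p) (W2 → ZMod p) × Submodule (ZMod p) (W3 → ZMod p) ×
    Submodule (ZMod p) (W4 → ZMod p) → Prop := fun V => IsCfg s V.1 V.2.1 V.2.2 ∧ Full V.1 V.2.1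
  let sg : {V // P V} → Finset W2 × Finset W3 := fun V =>
    ((supp wt2 V.1.1).toFinset, (supp wt3 V.1.2.1).toFinset)
  haveI : Finite {V // P V} := Subtype.finite
  have hsum : Nat.card {V // P V} = ∑ A, Nat.card {x : {V // P V} // sg x = A} := by
    rw [← Nat.card_sigma]
    exact Nat.card_congr (Equiv.sigmaFiberEquiv sg).symm
  change Nat.card {V // P V} ≡ _ [MOD 5]
  rw [hsum]
  have key : ∀ A, Nat.card {x : {V // P V} // sg x = A} ≡ t A [MOD 5] := by
    intro A
    by_cases hC : Cond A
    · obtain ⟨c1, c2, c3, c4, c5⟩ := hC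
      have ht : t A = (g4 A).choose (5 * s - g2 A.1 - g3 A) := if_pos ⟨c1, c2, c3, c4, c5⟩
      rw [ht]
      have s2 : supp wt2 (S2 (ZMod p) A.1) = (A.1 : Set W2) := by
        apply Set.Subset.antisymm (S2_supp c1)
        intro w hw
        rw [mem_supp2, f2, f2]
        exact c3 w hw
      have s3 : supp wt3 (S3 (ZMod p) A.1 A.2) = (A.2 : Set W3) := by
        apply Set.Subset.antisymm (S3_supp c2)
        intro w hw
        rw [mem_supp3, f3, f3]
        exact c4 w hw
      have hpair := S_pair (k := ZMod p) c1 c2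
      have hst := card_stable hStab hCnt hz (stabT_D4 hpair.t3) (stabR_D4 hpair.r3)
        (5 * s - g2 A.1 - g3 A)
      rw [f4] at hst
      have heq : Nat.card {x : {V // P V} // sg x = A} =
          Nat.card {V : Submodule (ZMod p) (W4 → ZMod p) // V ≤ D4 (S3 (ZMod p) A.1 A.2) ∧
            StabT wt4 V ∧ StabR rot4 V ∧
            Module.finrank (ZMod p) V = 5 * s - g2 A.1 - g3 A} := by
        have hx : ∀ x : {x : {V // P V} // sg x = A},
            x.1.1.1 = S2 (ZMod p) A.1 ∧ x.1.1.2.1 = S3 (ZMod p) A.1 A.2 := by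
          rintro ⟨⟨V, hV, hVf⟩, hs⟩
          have e2 : (supp wt2 V.1).toFinset = A.1 := congrArg Prod.fst hs
          have e3 : (supp wt3 V.2.1).toFinset = A.2 := congrArg Prod.snd hs
          exact full_eq hV.pair hVf (by rw [← e2, Set.coe_toFinset])
            (by rw [← e3, Set.coe_toFinset])
        apply Nat.card_congr
        refine ⟨fun x => ⟨x.1.1.2.2, ?_⟩, fun V4 => ⟨⟨(S2 _ A.1, S3 _ A.1 A.2, V4.1), ?_⟩, ?_⟩,
          ?_, ?_⟩
        · obtain ⟨e2, e3⟩ := hx x
          have hcfg := x.1.2.1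
          refine ⟨e3 ▸ hcfg.le4, hcfg.t4, hcfg.r4, ?_⟩
          have hd := hcfg.dim
          rw [e2, e3, f2, f3] at hd
          have hA : g3 (A.1, A.2) = g3 A := rfl
          rw [hA] at hd
          omega
        · refine ⟨⟨hpair, V4.2.1, V4.2.2.1, V4.2.2.2.1, ?_, ?_⟩, S_full s3⟩
          · intro h0
            have h1 := V4.2.2.2.2
            change Module.finrank (ZMod p) V4.1 = _ at h1
            change V4.1 = ⊥ at h0
            rw [h0, finrank_bot] at h1
            omega
          · change Module.finrank (ZMod p) (S2 (ZMod p) A.1) +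
              Module.finrank (ZMod p) (S3 (ZMod p) A.1 A.2) + Module.finrank (ZMod p) V4.1 = 5 * s
            rw [f2, f3, V4.2.2.2.2]
            have hA : g3 (A.1, A.2) = g3 A := rfl
            rw [hA]
            omega
        · change ((supp wt2 (S2 (ZMod p) A.1)).toFinset, (supp wt3 (S3 (ZMod p) A.1 A.2)).toFinset)
            = A
          ext w
          · simp only [Set.mem_toFinset, s2]
            rfl
          · simp only [Set.mem_toFinset, s3]
            rfl
        · intro x
          obtain ⟨e2, e3⟩ := hx x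
          apply Subtype.ext
          apply Subtype.ext
          change (S2 (ZMod p) A.1, S3 (ZMod p) A.1 A.2, x.1.1.2.2) = x.1.1
          rw [← e2, ← e3]
        · intro V4
          rfl
      rw [heq]
      exact hst
    · have ht : t A = 0 := if_neg hC
      rw [ht]
      have hemp : IsEmpty {x : {V // P V} // sg x = A} := by
        constructor
        rintro ⟨⟨V, hV, hVf⟩, hs⟩
        apply hC
        have e2 : (supp wt2 V.1).toFinset = A.1 := congrArg Prod.fst hs
        have e3 : (supp wt3 V.2.1).toFinset = A.2 := congrArg Prod.snd hs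
        have q2 : supp wt2 V.1 = (A.1 : Set W2) := by rw [← e2, Set.coe_toFinset]
        have q3 : supp wt3 V.2.1 = (A.2 : Set W3) := by rw [← e3, Set.coe_toFinset]
        obtain ⟨v2, v3⟩ := full_eq hV.pair hVf q2 q3
        refine ⟨supp_good rot2_five wt2_rot hV.pair.r2 q2,
          supp_good rot3_five wt3_rot hV.pair.r3 q3, fun w hw => ?_, fun w hw => ?_, ?_⟩
        · rw [← f2, ← f2, ← mem_supp2, ← v2, q2]
          exact hw
        · have hA : g3 A = g3 (A.1, A.2) := rfl
          rw [hA, ← f3, ← f3, ← mem_supp3, ← v3, q3]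
          exact hw
        · have hd := hV.dim
          have hpos : 0 < Module.finrank (ZMod p) V.2.2 := by
            rw [Module.finrank_pos_iff]
            exact Submodule.nontrivial_iff_ne_bot.2 hV.ne
          have hA : g3 A = g3 (A.1, A.2) := rfl
          rw [hA, ← f2, ← f3, ← v2, ← v3]
          omega
      rw [Nat.card_of_isEmpty]
  exact sum_modEq _ _ _ fun A _ => key A

end Pool.Agent.W373.Unif
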