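import Pool.Agent.W373.Unif.CombE

set_option autoImplicit false

namespace Pool.Agent.W373.Unif

theorem split4 (n : ℕ) (x : X) (w : W3) : rot4^[n] (x, w) = (rot^[n] x, rot3^[n] w) := by
  induction n generalizing x w with
  | zero => rfl
  | succ n ih =>
    rw [Function.iterate_succ_apply, Function.iterate_succ_apply, Function.iterate_succ_apply]
    exact ih _ _

/-- combinatorial step: two different first letters force the content of the base word -/
theorem content_of_two {i : Fin 4} {x y : X} {w w' : W3} (hxy : x ≠ y)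
    (hwt : wt4 (x, w) = wt4 (y, w')) (ht : tri i w) (ht' : tri i w') :
    ∃ n : Fin 5, wt4 (rot4^[(n : ℕ)] (x, w)) = wt4 (base4 i) := by
  have h1 : wt4 (y, w') / 5 ^ (y : ℕ) % 5 ≠ 0 := (dig y (y, w')).2 (Or.inl rfl)
  rw [← hwt] at h1
  have h2 := (dig y (x, w)).1 h1
  obtain ⟨s, t, hst⟩ : ∃ s t : X, wt3 w = wt3 (y, s, t) := by
    obtain ⟨a, b, c⟩ := w
    rcases h2 with h | h | h | h
    · exact absurd h hxy
    · change a = y at h
      exact ⟨b, c, by rw [h]⟩
    · change b = y at h
      exact ⟨a, c, by rw [h]; simp only [wt3, wt2]; omega⟩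
    · change c = y at h
      exact ⟨a, b, by rw [h]; simp only [wt3, wt2]; omega⟩
  have h3 : wt3 w' = wt3 (x, s, t) := by
    simp only [wt4, wt3, wt2] at hwt hst ⊢
    omega
  obtain ⟨n, hn⟩ := double i x y s t hxy (tri_wt hst ht) (tri_wt h3 ht')
  refine ⟨n, ?_⟩
  rw [← hn, wt_iter wt4_rot, wt_iter wt4_rot]
  congr 1
  simp only [wt4, wt3, wt2] at hst ⊢
  omega

section
variable {k : Type} [Field k]

theorem exists_o (h2 : (2 : k) ≠ 0) (i : Fin 4) {V4 : Submodule k (W4 → k)} (hD : V4 ≤ DT k i)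
    (hT : StabT wt4 V4) (hR : StabR rot4 V4) (h5 : Module.finrank k V4 = 5)
    (hd : Module.finrank k (dV V4) ≠ 5) : ∃ o : Option k, V4 = Vo i o := by
  have hne : V4 ≠ ⊥ := by
    rintro rfl
    rw [finrank_bot] at h5
    omega
  have hC4 : V4 ≤ C4 k := hD.trans fun F hF => hF.1
  obtain ⟨F, hF, hF0⟩ := Submodule.exists_mem_ne_zero_of_ne_bot hne
  obtain ⟨w0, hw0⟩ := Function.ne_iff.1 hF0
  have hw05 : w0 ≠ (5, 5, 5, 5) := by
    rintro rfl
    exact hw0 (C4_diag h2 (hC4 hF) 5 5 5)
  set F1 := mask wt4 (wt4 w0) F with hF1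
  have hF1V : F1 ∈ V4 := hT F hF _
  have hF1w : F1 w0 ≠ 0 := by
    simp only [hF1, mask, if_true]; exact hw0
  have hF1s : ∀ w, F1 w ≠ 0 → wt4 w = wt4 w0 := by
    intro w hw
    by_contra hcon
    exact hw (by simp only [hF1, mask, if_neg hcon])
  -- two different first letters
  have htwo : ∃ x w, x ≠ w0.1 ∧ F1 (x, w) ≠ 0 := by
    by_contra hcon
    push Not at hcon
    apply hd
    apply le_antisymm
    · have hle : dV V4 ≤ Submodule.span k
          (Set.range fun j : Fin 5 => fun w : W3 => F1 (w0.1, rot3^[(j : ℕ)] w)) := by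
        rw [dV_le_iff]
        intro H hH x
        obtain ⟨cc, hcc⟩ := exists_coeff rot4_five hT hR hF hw0 (wt4_ne w0 hw05) h5 hH
        have : (fun w : W3 => H (x, w)) = ∑ j : Fin 5, (if rot^[(j : ℕ)] x = w0.1 then cc j else 0) •
            (fun w : W3 => F1 (w0.1, rot3^[(j : ℕ)] w)) := by
          funext w
          rw [hcc, Finset.sum_apply]
          apply Finset.sum_congr rfl
          intro j _
          rw [split4, Pi.smul_apply, smul_eq_mul]
          change cc j * F1 (rot^[(j : ℕ)] x, rot3^[(j : ℕ)] w) = _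
          by_cases h : rot^[(j : ℕ)] x = w0.1
          · rw [if_pos h, h]
          · rw [if_neg h, hcon _ _ h, mul_zero, zero_mul]
        rw [this]
        exact Submodule.sum_mem _ fun j _ => Submodule.smul_mem _ _ (Submodule.subset_span ⟨j, rfl⟩)
      refine (Submodule.finrank_mono hle).trans ?_
      calc Module.finrank k (Submodule.span k
            (Set.range fun j : Fin 5 => fun w : W3 => F1 (w0.1, rot3^[(j : ℕ)] w))) ≤
            Fintype.card (Fin 5) := finrank_range_le_card (R := k)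
              (fun j : Fin 5 => fun w : W3 => F1 (w0.1, rot3^[(j : ℕ)] w))
        _ = 5 := by simp
    · refine five_le3 h2 ?_ (stabT_dV hT) (stabR_dV hR) (dV_ne_bot hne)
      rw [dV_le_iff]
      intro F hF x
      exact (hC4 hF).1 x
  obtain ⟨y, w', hy, hyw⟩ := htwo
  have hwt := (hF1s _ hyw).symm
  have ht : tri i w0.2 := by
    by_contra hcon
    exact hF1w ((hD hF1V).2 w0.1 w0.2 hcon)
  have ht' : tri i w' := by
    by_contra hcon
    exact hyw ((hD hF1V).2 y w' hcon)
  obtain ⟨n, hn⟩ := content_of_two (x := w0.1) (w := w0.2) (Ne.symm hy) hwt ht ht'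
  change wt4 (rot4^[(n : ℕ)] w0) = wt4 (base4 i) at hn
  have hF2V : (fun w => F1 (rot4^[5 - (n : ℕ)] w)) ∈ V4 := hR.iter hF1V _
  set F2 : W4 → k := fun w => F1 (rot4^[5 - (n : ℕ)] w) with hF2
  have hF2s : ∀ w, wt4 w ≠ wt4 (base4 i) → F2 w = 0 := by
    intro w hw
    by_contra hcon
    apply hw
    have e1 := hF1s _ hcon
    have e2 : wt4 (rot4^[(n : ℕ)] (rot4^[5 - (n : ℕ)] w)) = wt4 (rot4^[(n : ℕ)] w0) := by
      rw [wt_iter wt4_rot, wt_iter wt4_rot (n : ℕ) w0, e1]
    rw [← Function.iterate_add_apply] at e2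
    have : (n : ℕ) + (5 - (n : ℕ)) = 5 := by omega
    rw [this, rot4_five] at e2
    exact e2.trans hn
  have hF2ne : F2 ≠ 0 := by
    intro h0
    have : F2 (rot4^[(n : ℕ)] w0) = 0 := by rw [h0]; rfl
    simp only [hF2] at this
    rw [← Function.iterate_add_apply] at this
    have e : 5 - (n : ℕ) + n = 5 := by omega
    rw [e, rot4_five] at this
    exact hF1w this
  have hu := FK_unique h2 i (hD hF2V) hF2s
  set u := F2 (base4 i) with hudef
  set v := F2 (base4' i) with hvdef
  have key : ∃ o : Option k, Fo i o ∈ V4 := by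
    by_cases hv : v = 0
    · have hu0 : u ≠ 0 := by
        intro h0
        apply hF2ne
        rw [hu, hv, h0]
        funext w
        simp [FK]
      refine ⟨none, ?_⟩
      have : Fo i none = u⁻¹ • F2 := by
        rw [hu, hv]
        funext w
        simp only [Fo, FK, uv, Pi.smul_apply, smul_eq_mul]
        field_simp
        ring
      rw [this]
      exact V4.smul_mem _ hF2V
    · refine ⟨some (u / v), ?_⟩
      have : Fo i (some (u / v)) = v⁻¹ • F2 := by
        rw [hu]
        funext w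
        simp only [Fo, FK, uv, Pi.smul_apply, smul_eq_mul]
        field_simp
      rw [this]
      exact V4.smul_mem _ hF2V
  obtain ⟨o, ho⟩ := key
  refine ⟨o, (Submodule.eq_of_le_of_finrank_le (Vo_le i o hR ho) ?_).symm⟩
  rw [Vo_finrank, h5]

theorem Vo_inj (i : Fin 4) {o o' : Option k} (h : Vo i o = Vo i o') : o = o' := by
  obtain ⟨w0, hw0, hw01, hw02, hw0ne⟩ := exists_ne i o
  have hw05 : ∀ w : W4, wt4 w = wt4 (base4 i) → w ≠ (5, 5, 5, 5) := by
    rintro w hw rfl
    exact base_ne5 i hw.symm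
  have hmem : Fo i o' ∈ Vo i o := by rw [h]; exact Fo_mem_Vo i o'
  obtain ⟨cc, hcc⟩ := exists_coeff rot4_five (Vo_stabT i o) (Vo_stabR i o) (Fo_mem_Vo i o) hw0ne
    (wt4_ne w0 (hw05 w0 hw0)) (Vo_finrank i o) hmem
  have hev : ∀ w : W4, wt4 w = wt4 (base4 i) →
      (∑ j : Fin 5, cc j * mask wt4 (wt4 w0) (Fo i o) (rot4^[(j : ℕ)] w)) = cc 0 * Fo i o w := by
    intro w hw
    rw [Finset.sum_eq_single 0]
    · simp [mask, hw, hw0]
    · intro j _ hj
      have h1 := wt4_ne w (hw05 w hw) j hj
      have : ¬ (wt4 (rot4^[(j : ℕ)] w) = wt4 w0) := fun h => h1 (h.trans (hw0.trans hw.symm))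
      simp only [mask, if_neg this, mul_zero]
    · intro h; exact absurd (Finset.mem_univ _) h
  obtain ⟨b1, b2, b3, b4, b5⟩ := base4_fst i
  have v1 := congrFun hcc (base4 i)
  have v2 := congrFun hcc (base4' i)
  rw [hev _ rfl] at v1
  rw [hev _ b4] at v2
  simp only [Fo] at v1 v2
  rw [(FK_base i _ _).1, (FK_base i _ _).1] at v1
  rw [(FK_base i _ _).2, (FK_base i _ _).2] at v2
  cases o with
  | none =>
    cases o' with
    | none => rfl
    | some t' => simp [uv] at v1 v2
  | some t =>
    cases o' with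
    | none =>
      simp only [uv, mul_one] at v1 v2
      rw [← v2, zero_mul] at v1
      exact absurd v1 one_ne_zero
    | some t' =>
      simp only [uv, mul_one] at v1 v2
      rw [← v2, one_mul] at v1
      rw [v1]

end

theorem card_zero_small (p : ℕ) [Fact p.Prime] (i : Fin 4) (hi : i = 0 ∨ i = 1) :
    Nat.card {o : Option (ZMod p) // Qo i o = 0} = Nat.card {t : ZMod p // t ^ 2 - t + 1 = 0} := by
  apply Nat.card_congr
  refine ⟨fun o => match o with
    | ⟨none, h⟩ => ⟨0, by simp [Qo, uv, rc, if_pos hi] at h⟩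
    | ⟨some t, h⟩ => ⟨t, by
        simp only [Qo, uv, rc, if_pos hi] at h
        linear_combination -h⟩, fun t => ⟨some t.1, by
        have := t.2
        simp only [Qo, uv, rc, if_pos hi]
        linear_combination -this⟩, ?_, ?_⟩
  · rintro ⟨o, h⟩
    cases o with
    | none => simp [Qo, uv, rc, if_pos hi] at h
    | some t => rfl
  · rintro ⟨t, h⟩
    rfl

theorem card_zero_large (p : ℕ) [Fact p.Prime] (hp : 5 < p) (i : Fin 4) (hi : ¬ (i = 0 ∨ i = 1)) :
    Nat.card {o : Option (ZMod p) // Qo i o = 0} = 2 := by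
  have h2 := two_ne p hp
  have hset : {o : Option (ZMod p) | Qo i o = 0} = {none, some ((2 : ZMod p)⁻¹)} := by
    ext o
    cases o with
    | none => simp [Qo, uv, rc, if_neg hi]
    | some t =>
      simp only [Set.mem_setOf_eq, Set.mem_insert_iff, reduceCtorEq, false_or,
        Set.mem_singleton_iff, Option.some.injEq, Qo, uv, rc, if_neg hi]
      constructor
      · intro h
        have : (2 : ZMod p) * t = 1 := by linear_combination h
        exact eq_inv_of_mul_eq_one_right this
      · rintro rfl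
        have : (2 : ZMod p) * (2 : ZMod p)⁻¹ = 1 := mul_inv_cancel₀ h2
        linear_combination this
  have : Nat.card {o : Option (ZMod p) // Qo i o = 0} =
      Set.ncard {o : Option (ZMod p) | Qo i o = 0} := rfl
  rw [this, hset, Set.ncard_pair (by simp)]

theorem combE : S_CombE := by
  intro p _ hp i
  have h2 := two_ne p hp
  have e1 : Nat.card {V4 : Submodule (ZMod p) (W4 → ZMod p) // V4 ≤ DT (ZMod p) i ∧
      StabT wt4 V4 ∧ StabR rot4 V4 ∧ Module.finrank (ZMod p) V4 = 5 ∧
      Module.finrank (ZMod p) (dV V4) ≠ 5} =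
      Nat.card {o : Option (ZMod p) // ¬ (Qo i o = 0)} := by
    symm
    apply Nat.card_congr
    refine Equiv.ofBijective (fun o => ⟨Vo i o.1, ?_, Vo_stabT i _, Vo_stabR i _,
      Vo_finrank i _, fun h => o.2 ((dV5_iff h2 i o.1).1 h)⟩) ⟨?_, ?_⟩
    · exact Vo_le i o.1 (stabR_DT i) (Fo_mem_DT i o.1)
    · intro o o' h
      apply Subtype.ext
      exact Vo_inj i (congrArg Subtype.val h)
    · rintro ⟨V4, hD, hT, hR, h5, hd⟩
      obtain ⟨o, ho⟩ := exists_o h2 i hD hT hR h5 hd
      subst ho
      exact ⟨⟨o, fun hQ => hd ((dV5_iff h2 i o).2 hQ)⟩, rfl⟩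
  have e2 : Nat.card {o : Option (ZMod p) // Qo i o = 0} +
      Nat.card {o : Option (ZMod p) // ¬ (Qo i o = 0)} = p + 1 := by
    classical
    haveI : Fintype (ZMod p) := ZMod.fintype p
    rw [Nat.card_eq_fintype_card, Nat.card_eq_fintype_card, Fintype.card_subtype_compl]
    have h3 : Fintype.card (Option (ZMod p)) = p + 1 := by
      rw [Fintype.card_option, ZMod.card]
    have h4 : Fintype.card {o : Option (ZMod p) // Qo i o = 0} ≤ Fintype.card (Option (ZMod p)) :=
      Fintype.card_subtype_le _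
    omega
  have e3 : (if i = 0 ∨ i = 1 then Nat.card {t : ZMod p // t ^ 2 - t + 1 = 0} else 2) =
      Nat.card {o : Option (ZMod p) // Qo i o = 0} := by
    split_ifs with h
    · exact (card_zero_small p i h).symm
    · exact (card_zero_large p hp i h).symm
  rw [e1, e3]
  omega

end Pool.Agent.W373.Unif
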