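import Pool.Agent.W373.Unif.Statements

set_option autoImplicit false

namespace Pool.Agent.W373.Unif

/-! ## number of roots of `t ^ 2 - t + 1` -/

theorem roots_two (p : ℕ) [hp : Fact p.Prime] (h : p % 3 = 2) :
    Nat.card {t : ZMod p // t ^ 2 - t + 1 = 0} = 0 := by
  have hp3 : p ≠ 3 := by rintro rfl; simp at h
  have : IsEmpty {t : ZMod p // t ^ 2 - t + 1 = 0} := by
    constructor
    rintro ⟨t, ht⟩
    have h3 : (-t) ^ 3 = 1 := by linear_combination (-(t + 1)) * ht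
    have hne : (-t) ≠ 1 := by
      intro h1
      have ht1 : t = -1 := by linear_combination -h1
      rw [ht1] at ht
      have h30 : ((3 : ℕ) : ZMod p) = 0 := by push_cast; linear_combination ht
      rw [ZMod.natCast_eq_zero_iff] at h30
      exact hp3 ((Nat.prime_dvd_prime_iff_eq hp.out Nat.prime_three).1 h30)
    have ht0 : (-t) ≠ 0 := by
      intro h0
      rw [h0] at h3
      simp at h3
    have ho : orderOf (-t) = 3 := orderOf_eq_prime h3 hne
    have hd := ZMod.orderOf_dvd_card_sub_one ht0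
    rw [ho] at hd
    have := hp.out.two_le
    omega
  exact Nat.card_of_isEmpty

theorem roots_one (p : ℕ) [hp : Fact p.Prime] (h : p % 3 = 1) :
    Nat.card {t : ZMod p // t ^ 2 - t + 1 = 0} = 2 := by
  have hp3 : p ≠ 3 := by rintro rfl; simp at h
  have h3p : 3 ∣ p - 1 := by have := hp.out.two_le; omega
  -- element of order three
  haveI : Fact (Nat.Prime 3) := ⟨Nat.prime_three⟩
  have hcard : 3 ∣ Nat.card (ZMod p)ˣ := by
    rw [Nat.card_eq_fintype_card, ZMod.card_units_eq_totient, Nat.totient_prime hp.out]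
    exact h3p
  obtain ⟨u, hu⟩ := exists_prime_orderOf_dvd_card' 3 hcard
  set w : ZMod p := (u : ZMod p) with hw
  have hw3 : w ^ 3 = 1 := by
    have := pow_orderOf_eq_one u
    rw [hu] at this
    rw [hw, ← Units.val_pow_eq_pow_val, this, Units.val_one]
  have hw1 : w ≠ 1 := by
    intro h1
    have : u = 1 := Units.ext (by rw [← hw, h1, Units.val_one])
    rw [this, orderOf_one] at hu
    omega
  have hq : w ^ 2 + w + 1 = 0 := by
    have : (w - 1) * (w ^ 2 + w + 1) = 0 := by linear_combination hw3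
    exact (mul_eq_zero.1 this).resolve_left (sub_ne_zero.2 hw1)
  have hne : (-w) ≠ 1 + w := by
    intro he
    have h3 : ((3 : ℕ) : ZMod p) = 0 := by
      push_cast
      linear_combination 4 * hq + (2 * w + 1) * he
    rw [ZMod.natCast_eq_zero_iff] at h3
    exact hp3 ((Nat.prime_dvd_prime_iff_eq hp.out Nat.prime_three).1 h3)
  have hset : {t : ZMod p | t ^ 2 - t + 1 = 0} = {-w, 1 + w} := by
    ext t
    simp only [Set.mem_setOf_eq, Set.mem_insert_iff, Set.mem_singleton_iff]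
    constructor
    · intro ht
      have : (t + w) * (t - (1 + w)) = 0 := by linear_combination ht - hq
      rcases mul_eq_zero.1 this with h1 | h1
      · left; linear_combination h1
      · right; linear_combination h1
    · rintro (rfl | rfl)
      · linear_combination hq
      · linear_combination hq
  have : Nat.card {t : ZMod p // t ^ 2 - t + 1 = 0} = Set.ncard {t : ZMod p | t ^ 2 - t + 1 = 0} :=
    rfl
  rw [this, hset, Set.ncard_pair hne]

/-! ## the free nilpotent Lie algebra of class four -/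

section
variable (R : Type) [CommRing R]

/-- kernel -/
noncomputable abbrev J4 : LieIdeal R (FreeLieAlgebra R X) :=
  LieModule.lowerCentralSeries R (FreeLieAlgebra R X) (FreeLieAlgebra R X) 4

/-- quotient map as a homomorphism of Lie algebras -/
noncomputable def pi4 : FreeLieAlgebra R X →ₗ⁅R⁆ (FreeLieAlgebra R X ⧸ J4 R) :=
  { (LieSubmodule.Quotient.mk' (J4 R) : FreeLieAlgebra R X →ₗ[R] _) with
    map_lie' := fun {x y} => LieSubmodule.Quotient.mk_bracket (J4 R) x y }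

theorem pi4_surj : Function.Surjective (pi4 R) := LieSubmodule.Quotient.surjective_mk' (J4 R)

theorem pi4_ker : (pi4 R).ker = J4 R := by
  ext y
  rw [LieHom.mem_ker]
  exact LieSubmodule.Quotient.mk_eq_zero (N := J4 R)
end

theorem card_res (p : ℕ) [Fact p.Prime] :
    Nat.card (IsLocalRing.ResidueField (PadicInt p)) = p := by
  rw [Nat.card_congr (PadicInt.residueField (p := p)).toEquiv, Nat.card_zmod]

open Classical in
/-- number of graded ideals of index `p ^ k` in class four -/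
noncomputable def a4 (p k : ℕ) : ℕ :=
  if h : p.Prime then
    haveI : Fact p.Prime := ⟨h⟩
    (GI ℤ_[p] (fun a => pi4 ℤ_[p] (FreeLieAlgebra.of ℤ_[p] a)) (p ^ k)).ncard
  else 0

open Classical in
/-- number of graded ideals of index `p ^ k` in class three -/
noncomputable def a3 (p k : ℕ) : ℕ :=
  if h : p.Prime then
    haveI : Fact p.Prime := ⟨h⟩
    {I ∈ GI ℤ_[p] (fun a => pi4 ℤ_[p] (FreeLieAlgebra.of ℤ_[p] a)) (p ^ k) |
      LieModule.lowerCentralSeries ℤ_[p] (FreeLieAlgebra ℤ_[p] X ⧸ J4 ℤ_[p])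
        (FreeLieAlgebra ℤ_[p] X ⧸ J4 ℤ_[p]) 3 ≤ I}.ncard
  else 0

theorem a4_sub_a3 (hModel : S_Model) (hFin : S_Fin) (hFixT : S_FixT) (hFixR : S_FixR)
    (hCfg7 : S_Cfg7) (p : ℕ) [hp : Fact p.Prime] (hp5 : 5 < p) (h1 : p % 5 ^ 6 = 1) :
    a4 p 26 ≡ a3 p 26 + (2 * cfgCount p 3 + cfgCount p 4) [MOD 5] := by
  obtain ⟨M⟩ := hModel ℤ_[p] _ (pi4 ℤ_[p]) (pi4_surj _) (pi4_ker _)
  have hfin := hFin p _ _ ⟨M⟩ 26
  have ht := hFixT p _ _ ⟨M⟩ h1 26 hfin
  have hr := hFixR p _ _ ⟨M⟩ 26 hfin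
  rw [hCfg7 p _ _ M hp5] at hr
  have h34 := ht.trans hr
  have hsub : (GI ℤ_[p] (fun a => pi4 ℤ_[p] (FreeLieAlgebra.of ℤ_[p] a)) (p ^ 26)).Finite :=
    hfin.subset (fun I hI => hI.2)
  have hsplit : a4 p 26 = a3 p 26 +
      {I ∈ GI ℤ_[p] (fun a => pi4 ℤ_[p] (FreeLieAlgebra.of ℤ_[p] a)) (p ^ 26) |
        ¬ (LieModule.lowerCentralSeries ℤ_[p] (FreeLieAlgebra ℤ_[p] X ⧸ J4 ℤ_[p])
        (FreeLieAlgebra ℤ_[p] X ⧸ J4 ℤ_[p]) 3 ≤ I)}.ncard := by
    unfold a4 a3
    rw [dif_pos hp.out, dif_pos hp.out]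
    rw [← Set.ncard_union_eq _ (hsub.subset (fun I hI => hI.1))
      (hsub.subset (fun I hI => hI.1))]
    · congr 1
      ext I
      constructor
      · intro hI
        by_cases h : LieModule.lowerCentralSeries ℤ_[p] (FreeLieAlgebra ℤ_[p] X ⧸ J4 ℤ_[p])
          (FreeLieAlgebra ℤ_[p] X ⧸ J4 ℤ_[p]) 3 ≤ I
        · exact Or.inl ⟨hI, h⟩
        · exact Or.inr ⟨hI, h⟩
      · rintro (h | h)
        · exact h.1
        · exact h.1
    · rw [Set.disjoint_left]
      rintro I ⟨_, h2⟩ ⟨_, h3⟩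
      exact h3 h2
  rw [hsplit]
  exact Nat.ModEq.add_left _ h34

theorem final (hRat : S_Rat) (hModel : S_Model) (hL3 : S_L3) (hFin : S_Fin) (hFixT : S_FixT)
    (hFixR : S_FixR) (hCfg7 : S_Cfg7) (hComb : S_Comb) :
    ¬ (∀ c d : ℕ, 2 ≤ d →
    ∃ P Q : Polynomial (Polynomial ℚ), ∃ S : Finset ℕ,
    ∀ (p : ℕ) [Fact (Nat.Prime p)], p ∉ S →
    ∀ (O : Type) [CommRing O] [IsDomain O] [IsDiscreteValuationRing O]
      [Algebra (PadicInt p) O] [Module.Finite (PadicInt p) O],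
    ∀ (L : Type) [LieRing L] [LieAlgebra O L]
      (π : FreeLieAlgebra O (Fin d) →ₗ⁅O⁆ L),
      Function.Surjective π →
      π.ker = LieModule.lowerCentralSeries O (FreeLieAlgebra O (Fin d))
        (FreeLieAlgebra O (Fin d)) c →
      Q.map (Polynomial.evalRingHom ((Nat.card (IsLocalRing.ResidueField O) : ℕ) : ℚ)) ≠ 0 ∧
      (↑(Q.map (Polynomial.evalRingHom ((Nat.card (IsLocalRing.ResidueField O) : ℕ) : ℚ)))
          : PowerSeries ℚ) *
        PowerSeries.mk (fun k : ℕ =>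
          ((Set.ncard {I : LieIdeal O L |
              (I : Submodule O L) =
                (⨆ i : ℕ, ((I : Submodule O L) ⊓
                  Submodule.span O {y : L | ∃ (j : Fin d) (w : List (Fin d)),
                    w.length = i ∧
                    y = List.foldr (fun (k : Fin d) (a : L) => ⁅π (FreeLieAlgebra.of O k), a⁆)
                      (π (FreeLieAlgebra.of O j)) w})) ∧
              Nat.card (L ⧸ (I : Submodule O L)) =
                (Nat.card (IsLocalRing.ResidueField O)) ^ k} : ℕ) : ℚ))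
        = (↑(P.map (Polynomial.evalRingHom ((Nat.card (IsLocalRing.ResidueField O) : ℕ) : ℚ)))
            : PowerSeries ℚ)) := by
  intro H
  -- class four
  obtain ⟨m4, N4, h4⟩ := hRat a4 (by
    obtain ⟨P, Q, S, h⟩ := H 4 6 (by norm_num)
    refine ⟨P, Q, S, fun p hp hpS => ?_⟩
    haveI : Fact p.Prime := ⟨hp⟩
    have := h p hpS (PadicInt p) _ (pi4 ℤ_[p]) (pi4_surj _) (pi4_ker _)
    rw [card_res] at this
    have ha : ∀ k, a4 p k =
        (GI ℤ_[p] (fun a => pi4 ℤ_[p] (FreeLieAlgebra.of ℤ_[p] a)) (p ^ k)).ncard := fun k => by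
      unfold a4; rw [dif_pos hp]
    simp only [ha]
    exact this) 26
  obtain ⟨m3, N3, h3⟩ := hRat a3 (by
    obtain ⟨P, Q, S, h⟩ := H 3 6 (by norm_num)
    refine ⟨P, Q, S, fun p hp hpS => ?_⟩
    haveI : Fact p.Prime := ⟨hp⟩
    obtain ⟨L', i1, i2, π', hs, hk, hn⟩ := hL3 ℤ_[p] _ (pi4 ℤ_[p]) (pi4_surj _) (pi4_ker _)
      (hModel ℤ_[p] _ (pi4 ℤ_[p]) (pi4_surj _) (pi4_ker _))
    have := h p hpS (PadicInt p) L' π' hs hk
    rw [card_res] at this
    have ha : ∀ k, a3 p k =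
        (GI ℤ_[p] (fun a => π' (FreeLieAlgebra.of ℤ_[p] a)) (p ^ k)).ncard := fun k => by
      unfold a3; rw [dif_pos hp, hn]
    simp only [ha]
    exact this) 26
  obtain ⟨N, c, hc⟩ := hComb
  -- the modulus
  set m : ℕ := m3 + m4 + 6 with hm
  set B : ℕ := N + N3 + N4 + 5 with hB
  have hdvd : ∀ j ≤ m, ∀ r : ℕ, r % 5 ^ m = 1 → 1 ≤ j → r % 5 ^ j = 1 := by
    intro j hj r hr hj1
    have h5 : 5 ^ j ∣ 5 ^ m := Nat.pow_dvd_pow 5 hj
    have h1 : r % 5 ^ m % 5 ^ j = r % 5 ^ j := Nat.mod_mod_of_dvd r h5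
    rw [← h1, hr]
    exact Nat.mod_eq_of_lt (Nat.one_lt_pow (by omega) (by norm_num))
  have hm5 : 1 < 5 ^ m := Nat.one_lt_pow (by omega) (by norm_num)
  -- first prime: 1 mod 3
  obtain ⟨p, hp, hpB, hp1⟩ := Nat.exists_prime_gt_modEq_one (k := 3 * 5 ^ m) B (by positivity)
  have hpm : p % 5 ^ m = 1 := by
    have := hp1.of_mul_left 3
    rw [Nat.ModEq] at this
    rw [this]; exact Nat.mod_eq_of_lt hm5
  have hp3 : p % 3 = 1 := by
    have := hp1.of_mul_right (5 ^ m)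
    rw [Nat.ModEq] at this
    omega
  -- second prime: 2 mod 3
  obtain ⟨q, hq, hqB, hqm, hq3⟩ : ∃ q : ℕ, q.Prime ∧ B < q ∧ q % 5 ^ m = 1 ∧ q % 3 = 2 := by
    have hco : Nat.Coprime 3 (5 ^ m) := Nat.Coprime.pow_right _ (by norm_num)
    obtain ⟨r, hr3, hrm⟩ := Nat.chineseRemainder hco 2 1
    have hrc : r.Coprime (3 * 5 ^ m) := by
      apply Nat.Coprime.mul_right
      · have : Nat.gcd r 3 = Nat.gcd 2 3 := hr3.gcd_eq
        rw [Nat.Coprime, this]
        norm_num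
      · have : Nat.gcd r (5 ^ m) = Nat.gcd 1 (5 ^ m) := hrm.gcd_eq
        rw [Nat.Coprime, this, Nat.gcd_one_left]
    obtain ⟨q, hqB, hq, hqr⟩ := Nat.forall_exists_prime_gt_and_modEq B
      (q := 3 * 5 ^ m) (by positivity) hrc
    refine ⟨q, hq, hqB, ?_, ?_⟩
    · have h1 := (hqr.of_mul_left 3).trans hrm
      rw [Nat.ModEq] at h1
      rw [h1]; exact Nat.mod_eq_of_lt hm5
    · have h1 := (hqr.of_mul_right (5 ^ m)).trans hr3
      rw [Nat.ModEq] at h1
      omega
  haveI : Fact p.Prime := ⟨hp⟩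
  haveI : Fact q.Prime := ⟨hq⟩
  have hmod : ∀ j ≤ m, ∀ r : ℕ, r % 5 ^ m = 1 → r ≡ 1 [MOD 5 ^ j] := by
    intro j hj r hr
    have h1 : r ≡ 1 [MOD 5 ^ m] := by rw [Nat.ModEq, hr, Nat.mod_eq_of_lt hm5]
    exact h1.of_dvd (Nat.pow_dvd_pow 5 hj)
  have e4 : a4 p 26 ≡ a4 q 26 [MOD 5] :=
    h4 p q hp hq (by omega) (by omega) (hmod _ (by omega) _ hpm) (hmod _ (by omega) _ hqm)
  have e3 : a3 p 26 ≡ a3 q 26 [MOD 5] :=
    h3 p q hp hq (by omega) (by omega) (hmod _ (by omega) _ hpm) (hmod _ (by omega) _ hqm)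
  have hp6 := hdvd 6 (by omega) p hpm (by norm_num)
  have hq6 := hdvd 6 (by omega) q hqm (by norm_num)
  have fp := a4_sub_a3 hModel hFin hFixT hFixR hCfg7 p (by omega) hp6
  have fq := a4_sub_a3 hModel hFin hFixT hFixR hCfg7 q (by omega) hq6
  have gp := hc p (by omega) hp6
  have gq := hc q (by omega) hq6
  rw [roots_one p hp3] at gp
  rw [roots_two q hq3] at gq
  rw [Nat.ModEq] at *
  omega

end Pool.Agent.W373.Unif
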