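import Pool.Agent.W373.Unif.Defs

/-!
# Statements of all parts (as `Prop`s, each to be proved as `theorem main : S_...`)
-/

set_option autoImplicit false

namespace Pool.Agent.W373.Unif

open Polynomial

/-! ## general tools -/

/-- RAT. Uniform rational generating functions have coefficients which are constant mod 5 on
primes close to 1 in the 5-adic sense. -/
def S_Rat : Prop := ∀ (a : ℕ → ℕ → ℕ),
  (∃ P Q : Polynomial (Polynomial ℚ), ∃ S : Finset ℕ, ∀ p : ℕ, p.Prime → p ∉ S →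
    Q.map (Polynomial.evalRingHom (p : ℚ)) ≠ 0 ∧
    (↑(Q.map (Polynomial.evalRingHom (p : ℚ))) : PowerSeries ℚ) *
      PowerSeries.mk (fun k : ℕ => (a p k : ℚ)) =
      (↑(P.map (Polynomial.evalRingHom (p : ℚ))) : PowerSeries ℚ)) →
  ∀ k : ℕ, ∃ m N : ℕ, ∀ p q : ℕ, p.Prime → q.Prime → N < p → N < q →
    p ≡ 1 [MOD 5 ^ m] → q ≡ 1 [MOD 5 ^ m] → a p k ≡ a q k [MOD 5]

/-- EC. The dimension of the solution space of an integer linear system over `ZMod p` is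
eventually constant. -/
def S_EC : Prop := ∀ (ι W : Type) [Fintype ι] [Fintype W] (A : ι → W → ℤ),
  ∃ N g : ℕ, ∀ (p : ℕ) [Fact p.Prime], N < p →
    Module.finrank (ZMod p) (solZ A (ZMod p)) = g

/-- CNT. Number of subspaces of dimension `c` modulo 5 (Gaussian binomial at `q = 1`). -/
def S_Cnt : Prop := ∀ (k M : Type) [Field k] [Finite k] [AddCommGroup M] [Module k M]
  [FiniteDimensional k M] (ζ : k), IsPrimitiveRoot ζ (5 ^ 6) → Module.finrank k M < 5 ^ 6 →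
  ∀ c : ℕ, Nat.card {V : Submodule k M // Module.finrank k V = c} ≡
    (Module.finrank k M).choose c [MOD 5]

/-- STAB. Passing to torus and rotation stable subspaces does not change the count mod 5. -/
def S_Stab : Prop := ∀ (k W : Type) [Field k] [Finite k] [Fintype W] (ζ : k) (wt : W → ℕ)
  (r : W → W), IsPrimitiveRoot ζ (5 ^ 6) → (∀ w, wt w < 5 ^ 6) →
  (∀ w w', wt w = wt w' ↔ wt (r w) = wt (r w')) → r^[5] = id →
  ∀ C : Submodule k (W → k), StabT wt C → StabR r C → ∀ c : ℕ,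
    Nat.card {V : Submodule k (W → k) // V ≤ C ∧ StabT wt V ∧ StabR r V ∧
      Module.finrank k V = c} ≡
    Nat.card {V : Submodule k C // Module.finrank k V = c} [MOD 5]

/-! ## the free Lie algebra -/

/-- SPAN. The lower central series of the free Lie algebra is spanned by right normed words. -/
def S_Span : Prop := ∀ (R : Type) [CommRing R] (j : ℕ),
  (LieModule.lowerCentralSeries R (FreeLieAlgebra R X) (FreeLieAlgebra R X) j :
    Submodule R (FreeLieAlgebra R X)) =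
  Submodule.span R {y | ∃ (i : X) (w : List X), j ≤ w.length ∧
    y = List.foldr (fun (k : X) (a : FreeLieAlgebra R X) => ⁅FreeLieAlgebra.of R k, a⁆)
      (FreeLieAlgebra.of R i) w}

/-- CF. Coefficient functionals on the free Lie algebra. -/
def S_Cf : Prop := ∀ (R : Type) [CommRing R],
  ∃ (cf1 : FreeLieAlgebra R X →ₗ[R] (X → R)) (cf2 : FreeLieAlgebra R X →ₗ[R] (W2 → R))
    (cf3 : FreeLieAlgebra R X →ₗ[R] (W3 → R)) (cf4 : FreeLieAlgebra R X →ₗ[R] (W4 → R)),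
    (∀ y ∈ LieModule.lowerCentralSeries R (FreeLieAlgebra R X) (FreeLieAlgebra R X) 4,
      cf1 y = 0 ∧ cf2 y = 0 ∧ cf3 y = 0 ∧ cf4 y = 0) ∧
    (∀ a, cf1 (FreeLieAlgebra.of R a) = Pi.single a 1) ∧
    (∀ w, cf1 (b2 (FreeLieAlgebra.of R) w) = 0) ∧
    (∀ w, cf1 (b3 (FreeLieAlgebra.of R) w) = 0) ∧
    (∀ w, cf1 (b4 (FreeLieAlgebra.of R) w) = 0) ∧
    (∀ a, cf2 (FreeLieAlgebra.of R a) = 0) ∧
    (∀ a b, cf2 (b2 (FreeLieAlgebra.of R) (a, b)) = Pi.single (a, b) 1 - Pi.single (b, a) 1) ∧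
    (∀ w, cf2 (b3 (FreeLieAlgebra.of R) w) = 0) ∧
    (∀ w, cf2 (b4 (FreeLieAlgebra.of R) w) = 0) ∧
    (∀ a, cf3 (FreeLieAlgebra.of R a) = 0) ∧
    (∀ w, cf3 (b2 (FreeLieAlgebra.of R) w) = 0) ∧
    (∀ a b c, cf3 (b3 (FreeLieAlgebra.of R) (a, b, c)) = Pi.single (a, b, c) 1
      - Pi.single (a, c, b) 1 - Pi.single (b, c, a) 1 + Pi.single (c, b, a) 1) ∧
    (∀ w, cf3 (b4 (FreeLieAlgebra.of R) w) = 0) ∧
    (∀ a, cf4 (FreeLieAlgebra.of R a) = 0) ∧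
    (∀ w, cf4 (b2 (FreeLieAlgebra.of R) w) = 0) ∧
    (∀ w, cf4 (b3 (FreeLieAlgebra.of R) w) = 0) ∧
    (∀ a b c d, cf4 (b4 (FreeLieAlgebra.of R) (a, b, c, d)) = Pi.single (a, b, c, d) 1
      - Pi.single (a, b, d, c) 1 - Pi.single (a, c, d, b) 1 + Pi.single (a, d, c, b) 1
      - Pi.single (b, c, d, a) 1 + Pi.single (b, d, c, a) 1 + Pi.single (c, d, b, a) 1
      - Pi.single (d, c, b, a) 1)

/-- MODEL. Every free nilpotent Lie algebra of class four on six generators carries a `Model`. -/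
def S_Model : Prop := ∀ (R L : Type) [CommRing R] [LieRing L] [LieAlgebra R L]
  (π : FreeLieAlgebra R X →ₗ⁅R⁆ L), Function.Surjective π →
  π.ker = LieModule.lowerCentralSeries R (FreeLieAlgebra R X) (FreeLieAlgebra R X) 4 →
  Nonempty (Model R L (fun a => π (FreeLieAlgebra.of R a)))

/-- L3. The class three quotient: its graded ideals are those of `L` containing `lcs 3`. -/
def S_L3 : Prop := ∀ (R L : Type) [CommRing R] [LieRing L] [LieAlgebra R L]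
  (π : FreeLieAlgebra R X →ₗ⁅R⁆ L), Function.Surjective π →
  π.ker = LieModule.lowerCentralSeries R (FreeLieAlgebra R X) (FreeLieAlgebra R X) 4 →
  Nonempty (Model R L (fun a => π (FreeLieAlgebra.of R a))) →
  ∃ (L' : Type) (_ : LieRing L') (_ : LieAlgebra R L') (π' : FreeLieAlgebra R X →ₗ⁅R⁆ L'),
    Function.Surjective π' ∧
    π'.ker = LieModule.lowerCentralSeries R (FreeLieAlgebra R X) (FreeLieAlgebra R X) 3 ∧
    ∀ n : ℕ, (GI R (fun a => π' (FreeLieAlgebra.of R a)) n).ncard =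
      {I ∈ GI R (fun a => π (FreeLieAlgebra.of R a)) n |
        LieModule.lowerCentralSeries R L L 3 ≤ I}.ncard

/-! ## fixed points on the set of graded ideals -/

/-- FIN. Finitely many ideals of given index. -/
def S_Fin : Prop := ∀ (p : ℕ) [Fact p.Prime] (L : Type) [LieRing L] [LieAlgebra ℤ_[p] L]
  (x : X → L), Nonempty (Model ℤ_[p] L x) → ∀ n : ℕ,
  {I : LieIdeal ℤ_[p] L | Nat.card (L ⧸ (I : Submodule ℤ_[p] L)) = p ^ n}.Finite

/-- FIXT. Torus step. -/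
def S_FixT : Prop := ∀ (p : ℕ) [Fact p.Prime] (L : Type) [LieRing L] [LieAlgebra ℤ_[p] L]
  (x : X → L), Nonempty (Model ℤ_[p] L x) → p % 5 ^ 6 = 1 → ∀ n : ℕ,
  {I : LieIdeal ℤ_[p] L | Nat.card (L ⧸ (I : Submodule ℤ_[p] L)) = p ^ n}.Finite →
  {I ∈ GI ℤ_[p] x (p ^ n) | ¬ (LieModule.lowerCentralSeries ℤ_[p] L L 3 ≤ I)}.ncard ≡
  {I : LieIdeal ℤ_[p] L | MG x I ∧ Nat.card (L ⧸ (I : Submodule ℤ_[p] L)) = p ^ n ∧
    ¬ (LieModule.lowerCentralSeries ℤ_[p] L L 3 ≤ I)}.ncard [MOD 5]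

/-- FIXR. Rotation step. -/
def S_FixR : Prop := ∀ (p : ℕ) [Fact p.Prime] (L : Type) [LieRing L] [LieAlgebra ℤ_[p] L]
  (x : X → L), Nonempty (Model ℤ_[p] L x) → ∀ n : ℕ,
  {I : LieIdeal ℤ_[p] L | Nat.card (L ⧸ (I : Submodule ℤ_[p] L)) = p ^ n}.Finite →
  {I : LieIdeal ℤ_[p] L | MG x I ∧ Nat.card (L ⧸ (I : Submodule ℤ_[p] L)) = p ^ n ∧
    ¬ (LieModule.lowerCentralSeries ℤ_[p] L L 3 ≤ I)}.ncard ≡
  (FixedIdeals (R := ℤ_[p]) x (p ^ n)).ncard [MOD 5]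

/-! ## from fixed ideals to configurations -/

section Pairing
variable {p : ℕ} [Fact p.Prime] {L : Type} [LieRing L] [LieAlgebra ℤ_[p] L] {x : X → L}

/-- pairing with functions on words of length two -/
noncomputable def pr2 (M : Model ℤ_[p] L x) (F : W2 → ZMod p) (y : L) : ZMod p :=
  ∑ w, PadicInt.toZMod (M.cf2 y w) * F w
/-- pairing with functions on words of length three -/
noncomputable def pr3 (M : Model ℤ_[p] L x) (F : W3 → ZMod p) (y : L) : ZMod p :=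
  ∑ w, PadicInt.toZMod (M.cf3 y w) * F w
/-- pairing with functions on words of length four -/
noncomputable def pr4 (M : Model ℤ_[p] L x) (F : W4 → ZMod p) (y : L) : ZMod p :=
  ∑ w, PadicInt.toZMod (M.cf4 y w) * F w

/-- the set of all elements of `L` killed by the data `(m, l, V2, V3, V4)` -/
def idSet (M : Model ℤ_[p] L x) (m l : ℕ) (V2 : Submodule (ZMod p) (W2 → ZMod p))
    (V3 : Submodule (ZMod p) (W3 → ZMod p)) (V4 : Submodule (ZMod p) (W4 → ZMod p)) : Set L :=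
  {y | (p : ℤ_[p]) ^ m ∣ M.cf1 y 5 ∧ (∀ a : X, a ≠ 5 → (p : ℤ_[p]) ^ l ∣ M.cf1 y a) ∧
    (∀ F ∈ V2, pr2 M F y = 0) ∧ (∀ F ∈ V3, pr3 M F y = 0) ∧ (∀ F ∈ V4, pr4 M F y = 0)}

/-- the functions of `C2` whose functional kills the ideal `I` -/
def VI2 (M : Model ℤ_[p] L x) (I : LieIdeal ℤ_[p] L) : Submodule (ZMod p) (W2 → ZMod p) where
  carrier := {F | F ∈ C2 (ZMod p) ∧ ∀ y ∈ I, pr2 M F y = 0}
  add_mem' := fun {F G} hF hG => ⟨(C2 _).add_mem hF.1 hG.1, fun y hy => by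
    have h1 := hF.2 y hy
    have h2 := hG.2 y hy
    simp only [pr2, Pi.add_apply, mul_add, Finset.sum_add_distrib] at h1 h2 ⊢
    rw [h1, h2, add_zero]⟩
  zero_mem' := ⟨(C2 _).zero_mem, fun y _ => by simp [pr2]⟩
  smul_mem' := fun t F hF => ⟨(C2 _).smul_mem t hF.1, fun y hy => by
    have h1 := hF.2 y hy
    have : pr2 M (t • F) y = t * pr2 M F y := by
      simp only [pr2, Finset.mul_sum]
      exact Finset.sum_congr rfl fun w _ => by simp only [Pi.smul_apply, smul_eq_mul]; ring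
    rw [this, h1, mul_zero]⟩

/-- the functions of `C3` whose functional kills the ideal `I` -/
def VI3 (M : Model ℤ_[p] L x) (I : LieIdeal ℤ_[p] L) : Submodule (ZMod p) (W3 → ZMod p) where
  carrier := {F | F ∈ C3 (ZMod p) ∧ ∀ y ∈ I, pr3 M F y = 0}
  add_mem' := fun {F G} hF hG => ⟨(C3 _).add_mem hF.1 hG.1, fun y hy => by
    have h1 := hF.2 y hy
    have h2 := hG.2 y hy
    simp only [pr3, Pi.add_apply, mul_add, Finset.sum_add_distrib] at h1 h2 ⊢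
    rw [h1, h2, add_zero]⟩
  zero_mem' := ⟨(C3 _).zero_mem, fun y _ => by simp [pr3]⟩
  smul_mem' := fun t F hF => ⟨(C3 _).smul_mem t hF.1, fun y hy => by
    have h1 := hF.2 y hy
    have : pr3 M (t • F) y = t * pr3 M F y := by
      simp only [pr3, Finset.mul_sum]
      exact Finset.sum_congr rfl fun w _ => by simp only [Pi.smul_apply, smul_eq_mul]; ring
    rw [this, h1, mul_zero]⟩

/-- the functions of `C4` whose functional kills the ideal `I` -/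
def VI4 (M : Model ℤ_[p] L x) (I : LieIdeal ℤ_[p] L) : Submodule (ZMod p) (W4 → ZMod p) where
  carrier := {F | F ∈ C4 (ZMod p) ∧ ∀ y ∈ I, pr4 M F y = 0}
  add_mem' := fun {F G} hF hG => ⟨(C4 _).add_mem hF.1 hG.1, fun y hy => by
    have h1 := hF.2 y hy
    have h2 := hG.2 y hy
    simp only [pr4, Pi.add_apply, mul_add, Finset.sum_add_distrib] at h1 h2 ⊢
    rw [h1, h2, add_zero]⟩
  zero_mem' := ⟨(C4 _).zero_mem, fun y _ => by simp [pr4]⟩
  smul_mem' := fun t F hF => ⟨(C4 _).smul_mem t hF.1, fun y hy => by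
    have h1 := hF.2 y hy
    have : pr4 M (t • F) y = t * pr4 M F y := by
      simp only [pr4, Finset.mul_sum]
      exact Finset.sum_congr rfl fun w _ => by simp only [Pi.smul_apply, smul_eq_mul]; ring
    rw [this, h1, mul_zero]⟩

end Pairing

/-- DSW. Dynkin-Specht-Wever in degrees up to four. -/
def S_Dsw : Prop := ∀ (R L : Type) [CommRing R] [LieRing L] [LieAlgebra R L] (x : X → L)
  (M : Model R L x) (y : L),
  (12 : R) • y = (12 : R) • ∑ a, M.cf1 y a • x a + (6 : R) • ∑ w, M.cf2 y w • b2 x w +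
    (4 : R) • ∑ w, M.cf3 y w • b3 x w + (3 : R) • ∑ w, M.cf4 y w • b4 x w

/-- CFG1. The ideal attached to data, and its index. -/
def S_Cfg1 : Prop := ∀ (p : ℕ) [Fact p.Prime] (L : Type) [LieRing L] [LieAlgebra ℤ_[p] L]
  (x : X → L) (M : Model ℤ_[p] L x) (m l : ℕ) (V2 : Submodule (ZMod p) (W2 → ZMod p))
  (V3 : Submodule (ZMod p) (W3 → ZMod p)) (V4 : Submodule (ZMod p) (W4 → ZMod p)),
  5 < p → 1 ≤ m → 1 ≤ l → V2 ≤ C2 (ZMod p) → V3 ≤ D3 V2 → V4 ≤ D4 V3 →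
  ∃ I : LieIdeal ℤ_[p] L, (I : Set L) = idSet M m l V2 V3 V4 ∧
    Nat.card (L ⧸ (I : Submodule ℤ_[p] L)) =
      p ^ (m + 5 * l + Module.finrank (ZMod p) V2 + Module.finrank (ZMod p) V3 +
        Module.finrank (ZMod p) V4)

/-- CFG2. The data are recovered from the ideal. -/
def S_Cfg2 : Prop := ∀ (p : ℕ) [Fact p.Prime] (L : Type) [LieRing L] [LieAlgebra ℤ_[p] L]
  (x : X → L) (M : Model ℤ_[p] L x) (m l : ℕ) (V2 : Submodule (ZMod p) (W2 → ZMod p))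
  (V3 : Submodule (ZMod p) (W3 → ZMod p)) (V4 : Submodule (ZMod p) (W4 → ZMod p)),
  5 < p → V2 ≤ C2 (ZMod p) → V3 ≤ C3 (ZMod p) → V4 ≤ C4 (ZMod p) →
  (∀ n : ℕ, (p : ℤ_[p]) ^ n • x 5 ∈ idSet M m l V2 V3 V4 ↔ m ≤ n) ∧
  (∀ n : ℕ, (p : ℤ_[p]) ^ n • x 0 ∈ idSet M m l V2 V3 V4 ↔ l ≤ n) ∧
  (∀ F ∈ C2 (ZMod p), (∀ y ∈ idSet M m l V2 V3 V4, pr2 M F y = 0) → F ∈ V2) ∧
  (∀ F ∈ C3 (ZMod p), (∀ y ∈ idSet M m l V2 V3 V4, pr3 M F y = 0) → F ∈ V3) ∧
  (∀ F ∈ C4 (ZMod p), (∀ y ∈ idSet M m l V2 V3 V4, pr4 M F y = 0) → F ∈ V4)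

/-- CFG3. Stable data give stable ideals, and `lcs 3 ≤ I` iff `V4 = 0`. -/
def S_Cfg3 : Prop := ∀ (p : ℕ) [Fact p.Prime] (L : Type) [LieRing L] [LieAlgebra ℤ_[p] L]
  (x : X → L) (M : Model ℤ_[p] L x) (m l : ℕ) (V2 : Submodule (ZMod p) (W2 → ZMod p))
  (V3 : Submodule (ZMod p) (W3 → ZMod p)) (V4 : Submodule (ZMod p) (W4 → ZMod p))
  (I : LieIdeal ℤ_[p] L), 5 < p → (I : Set L) = idSet M m l V2 V3 V4 →
  IsPair V2 V3 → V4 ≤ D4 V3 → StabT wt4 V4 → StabR rot4 V4 →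
  MG x I ∧ RotSt x I ∧ (LieModule.lowerCentralSeries ℤ_[p] L L 3 ≤ I ↔ V4 = ⊥)

/-- CFG4. The data of a stable ideal are stable. -/
def S_Cfg4 : Prop := ∀ (p : ℕ) [Fact p.Prime] (L : Type) [LieRing L] [LieAlgebra ℤ_[p] L]
  (x : X → L) (M : Model ℤ_[p] L x) (I : LieIdeal ℤ_[p] L), 5 < p → MG x I → RotSt x I →
  IsPair (VI2 M I) (VI3 M I) ∧ VI4 M I ≤ D4 (VI3 M I) ∧ StabT wt4 (VI4 M I) ∧
    StabR rot4 (VI4 M I)

/-- CFG5. A multigraded rotation stable ideal containing `p` times all words of length two is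
given by its data. -/
def S_Cfg5 : Prop := ∀ (p : ℕ) [Fact p.Prime] (L : Type) [LieRing L] [LieAlgebra ℤ_[p] L]
  (x : X → L) (M : Model ℤ_[p] L x) (I : LieIdeal ℤ_[p] L) (m l : ℕ), 5 < p →
  MG x I → RotSt x I → (∀ w, (p : ℤ_[p]) • b2 x w ∈ I) →
  (∀ n : ℕ, (p : ℤ_[p]) ^ n • x 5 ∈ I ↔ m ≤ n) →
  (∀ n : ℕ, (p : ℤ_[p]) ^ n • x 0 ∈ I ↔ l ≤ n) →
  (I : Set L) = idSet M m l (VI2 M I) (VI3 M I) (VI4 M I)

/-- CFG6A. The index of a stable ideal is `p ^ n` with `n ≡ m` modulo 5. -/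
def S_Cfg6a : Prop := ∀ (p : ℕ) [Fact p.Prime] (L : Type) [LieRing L] [LieAlgebra ℤ_[p] L]
  (x : X → L) (_M : Model ℤ_[p] L x) (I : LieIdeal ℤ_[p] L) (m n : ℕ), 5 < p →
  MG x I → RotSt x I → (∀ n : ℕ, (p : ℤ_[p]) ^ n • x 5 ∈ I ↔ m ≤ n) →
  Nat.card (L ⧸ (I : Submodule ℤ_[p] L)) = p ^ n → n ≡ m [MOD 5]

/-- CFG6B. For a stable ideal of finite index which does not contain `lcs 3`, all three spaces of
functions have dimension at least five, and `x 0` is not in the ideal. -/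
def S_Cfg6b : Prop := ∀ (p : ℕ) [Fact p.Prime] (L : Type) [LieRing L] [LieAlgebra ℤ_[p] L]
  (x : X → L) (M : Model ℤ_[p] L x) (n : ℕ), ∀ I ∈ FixedIdeals (R := ℤ_[p]) x (p ^ n), 5 < p →
  5 ≤ Module.finrank (ZMod p) (VI2 M I) ∧ 5 ≤ Module.finrank (ZMod p) (VI3 M I) ∧
    5 ≤ Module.finrank (ZMod p) (VI4 M I) ∧ x 0 ∉ I

/-- CFG6. Numerics for index `p ^ 26`. -/
def S_Cfg6 : Prop := ∀ (p : ℕ) [Fact p.Prime] (L : Type) [LieRing L] [LieAlgebra ℤ_[p] L]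
  (x : X → L) (_M : Model ℤ_[p] L x), ∀ I ∈ FixedIdeals (R := ℤ_[p]) x (p ^ 26), 5 < p →
  ∃ m l : ℕ, (∀ n : ℕ, (p : ℤ_[p]) ^ n • x 5 ∈ I ↔ m ≤ n) ∧
    (∀ n : ℕ, (p : ℤ_[p]) ^ n • x 0 ∈ I ↔ l ≤ n) ∧ (∀ w, (p : ℤ_[p]) • b2 x w ∈ I) ∧
    ((m = 6 ∧ l = 1) ∨ (m = 1 ∧ l = 2) ∨ (m = 1 ∧ l = 1))

/-- CFG7. The number of fixed ideals of index `p ^ 26`. -/
def S_Cfg7 : Prop := ∀ (p : ℕ) [Fact p.Prime] (L : Type) [LieRing L] [LieAlgebra ℤ_[p] L]
  (x : X → L) (_M : Model ℤ_[p] L x), 5 < p →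
  (FixedIdeals (R := ℤ_[p]) x (p ^ 26)).ncard = 2 * cfgCount p 3 + cfgCount p 4

/-! ## counting configurations modulo 5 -/

/-- COMBA. The number of full configurations is eventually constant modulo 5. -/
def S_CombA : Prop := ∀ s : ℕ, ∃ N c : ℕ, ∀ (p : ℕ) [Fact p.Prime], N < p → p % 5 ^ 6 = 1 →
  Nat.card {V : Submodule (ZMod p) (W2 → ZMod p) × Submodule (ZMod p) (W3 → ZMod p) ×
    Submodule (ZMod p) (W4 → ZMod p) // IsCfg s V.1 V.2.1 V.2.2 ∧ Full V.1 V.2.1} ≡ c [MOD 5]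

/-- COMBF. Configurations of total dimension 15 are full. -/
def S_CombF : Prop := ∀ (p : ℕ) [Fact p.Prime], 5 < p →
  ∀ (V2 : Submodule (ZMod p) (W2 → ZMod p)) (V3 : Submodule (ZMod p) (W3 → ZMod p))
    (V4 : Submodule (ZMod p) (W4 → ZMod p)), IsCfg 3 V2 V3 V4 → Full V2 V3

/-- COMBN. Shape of the configurations of total dimension 20 which are not full. -/
def S_CombN : Prop := ∀ (p : ℕ) [Fact p.Prime], 5 < p →
  ∀ (V2 : Submodule (ZMod p) (W2 → ZMod p)) (V3 : Submodule (ZMod p) (W3 → ZMod p))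
    (V4 : Submodule (ZMod p) (W4 → ZMod p)),
    (IsCfg 4 V2 V3 V4 ∧ ¬ Full V2 V3) ↔
    ∃ i : Fin 4, V4 ≤ DT (ZMod p) i ∧ StabT wt4 V4 ∧ StabR rot4 V4 ∧
      Module.finrank (ZMod p) V4 = 5 ∧ Module.finrank (ZMod p) (dV V4) = 5 ∧
      V2 = CP (ZMod p) i ∧ V3 = dV V4

/-- COMBE. The exceptional subspaces: the exact count. -/
def S_CombE : Prop := ∀ (p : ℕ) [Fact p.Prime], 5 < p → ∀ i : Fin 4,
  Nat.card {V4 : Submodule (ZMod p) (W4 → ZMod p) // V4 ≤ DT (ZMod p) i ∧ StabT wt4 V4 ∧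
    StabR rot4 V4 ∧ Module.finrank (ZMod p) V4 = 5 ∧ Module.finrank (ZMod p) (dV V4) ≠ 5} +
  (if i = 0 ∨ i = 1 then Nat.card {t : ZMod p // t ^ 2 - t + 1 = 0} else 2) = p + 1

/-- COMB. The number of configurations modulo 5. -/
def S_Comb : Prop := ∃ N c : ℕ, ∀ (p : ℕ) [Fact p.Prime], N < p → p % 5 ^ 6 = 1 →
  2 * cfgCount p 3 + cfgCount p 4 ≡ c + 2 * Nat.card {t : ZMod p // t ^ 2 - t + 1 = 0} [MOD 5]

end Pool.Agent.W373.Unif
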