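import Pool.Agent.W373.Unif.Statements

/-!
# Basic facts: contents, rotation, stable spaces
-/

set_option autoImplicit false

namespace Pool.Agent.W373.Unif

/-! ## rotation on weights -/

/-- rotation of base five digits 0,...,4 -/
def rotN (N : ℕ) : ℕ := (N % 625) * 5 + N / 625 % 5 + N / 3125 * 3125

theorem wt_rot : ∀ a : X, wt (rot a) = rotN (wt a) := by decide +kernel
theorem wt2_rot : ∀ w : W2, wt2 (rot2 w) = rotN (wt2 w) := by decide +kernel
theorem wt3_rot : ∀ w : W3, wt3 (rot3 w) = rotN (wt3 w) := by decide +kernel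
theorem wt4_rot : ∀ w : W4, wt4 (rot4 w) = rotN (wt4 w) := by decide +kernel

theorem rot_five : rot^[5] = id := by
  funext a; revert a; decide +kernel
theorem rot2_five : rot2^[5] = id := by
  funext a; revert a; decide +kernel
theorem rot3_five : rot3^[5] = id := by
  funext a; revert a; decide +kernel
theorem rot4_five : rot4^[5] = id := by
  funext a; revert a; decide +kernel

theorem wt_lt : ∀ a : X, wt a < 5 ^ 6 := by decide +kernel
theorem wt2_lt : ∀ w : W2, wt2 w < 5 ^ 6 := by decide +kernel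
theorem wt3_lt : ∀ w : W3, wt3 w < 5 ^ 6 := by decide +kernel
theorem wt4_lt : ∀ w : W4, wt4 w < 5 ^ 6 := by decide +kernel

theorem wt_ne : ∀ w : X, w ≠ 5 → ∀ j : Fin 5, j ≠ 0 → wt (rot^[(j : ℕ)] w) ≠ wt w := by
  decide +kernel
theorem wt2_ne : ∀ w : W2, w ≠ (5, 5) → ∀ j : Fin 5, j ≠ 0 → wt2 (rot2^[(j : ℕ)] w) ≠ wt2 w := by
  decide +kernel
theorem wt3_ne : ∀ w : W3, w ≠ (5, 5, 5) → ∀ j : Fin 5, j ≠ 0 →
    wt3 (rot3^[(j : ℕ)] w) ≠ wt3 w := by
  decide +kernel
theorem wt4_ne : ∀ w : W4, w ≠ (5, 5, 5, 5) → ∀ j : Fin 5, j ≠ 0 →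
    wt4 (rot4^[(j : ℕ)] w) ≠ wt4 w := by
  decide +kernel

/-! ## words of the same weight are permutations of each other -/

theorem wt2_perm : ∀ a b a' b' : X, wt2 (a', b') = wt2 (a, b) →
    (a', b') = (a, b) ∨ (a', b') = (b, a) := by
  decide +kernel

theorem wt3_perm : ∀ a b c a' b' c' : X, wt3 (a', b', c') = wt3 (a, b, c) →
    (a', b', c') = (a, b, c) ∨ (a', b', c') = (a, c, b) ∨ (a', b', c') = (b, a, c) ∨
    (a', b', c') = (b, c, a) ∨ (a', b', c') = (c, a, b) ∨ (a', b', c') = (c, b, a) := by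
  decide +kernel

/-! ## iterates of a map of order five -/

section Iter
variable {W : Type} {r : W → W}

theorem iter_mod (hr : r^[5] = id) (n : ℕ) : r^[n] = r^[n % 5] := by
  conv_lhs => rw [← Nat.mod_add_div n 5]
  rw [Function.iterate_add, Function.iterate_mul, hr, Function.iterate_id]
  rfl

theorem wt_iter {wt : W → ℕ} {g : ℕ → ℕ} (hg : ∀ w, wt (r w) = g (wt w)) (n : ℕ) (w : W) :
    wt (r^[n] w) = g^[n] (wt w) := by
  induction n generalizing w with
  | zero => rfl
  | succ n ih => rw [Function.iterate_succ_apply, Function.iterate_succ_apply, ih, hg]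

theorem wt_iff {wt : W → ℕ} {g : ℕ → ℕ} (hg : ∀ w, wt (r w) = g (wt w)) (hr : r^[5] = id)
    (w w' : W) : wt w = wt w' ↔ wt (r w) = wt (r w') := by
  constructor
  · intro h; rw [hg, hg, h]
  · intro h
    have h1 : wt (r^[5] w) = wt (r^[5] w') := by
      have e : ∀ u, r^[5] u = r^[4] (r u) := fun u => Function.iterate_succ_apply r 4 u
      rw [e, e, wt_iter hg, wt_iter hg, h]
    rw [hr] at h1
    exact h1

end Iter

theorem wt2_iff (w w' : W2) : wt2 w = wt2 w' ↔ wt2 (rot2 w) = wt2 (rot2 w') :=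
  wt_iff wt2_rot rot2_five w w'
theorem wt3_iff (w w' : W3) : wt3 w = wt3 w' ↔ wt3 (rot3 w) = wt3 (rot3 w') :=
  wt_iff wt3_rot rot3_five w w'
theorem wt4_iff (w w' : W4) : wt4 w = wt4 w' ↔ wt4 (rot4 w) = wt4 (rot4 w') :=
  wt_iff wt4_rot rot4_five w w'

/-! ## stable spaces -/

section Stab
variable {k : Type} [Field k] {W : Type}

/-- weight component -/
abbrev mask (wt : W → ℕ) (j : ℕ) (F : W → k) : W → k := fun w => if wt w = j then F w else 0

theorem StabR.iter {r : W → W} {V : Submodule k (W → k)} (hR : StabR r V) {F : W → k}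
    (hF : F ∈ V) (n : ℕ) : (fun w => F (r^[n] w)) ∈ V := by
  induction n generalizing F with
  | zero => exact hF
  | succ n ih =>
    have := ih (hR F hF)
    have e : (fun w => F (r^[n+1] w)) = fun w => (fun w => F (r w)) (r^[n] w) := by
      funext w
      rw [Function.iterate_succ_apply']
    rw [e]; exact this

variable {wt : W → ℕ} {r : W → W}

theorem mask_iter_apply (hr : r^[5] = id) {w0 : W}
    (hne : ∀ j : Fin 5, j ≠ 0 → wt (r^[(j : ℕ)] w0) ≠ wt w0) (F : W → k) (i j : Fin 5) :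
    mask wt (wt w0) F (r^[(j : ℕ)] (r^[5 - (i : ℕ)] w0)) = if j = i then F w0 else 0 := by
  have h1 : r^[(j : ℕ)] (r^[5 - (i : ℕ)] w0) = r^[((j : ℕ) + (5 - (i : ℕ))) % 5] w0 := by
    rw [← iter_mod hr, Function.iterate_add_apply]
  rw [h1]
  by_cases h : j = i
  · subst h
    have : ((j : ℕ) + (5 - (j : ℕ))) % 5 = 0 := by omega
    rw [this, if_pos rfl]
    simp [mask]
  · rw [if_neg h]
    have hlt : ((j : ℕ) + (5 - (i : ℕ))) % 5 < 5 := Nat.mod_lt _ (by norm_num)
    have hn0 : (⟨((j : ℕ) + (5 - (i : ℕ))) % 5, hlt⟩ : Fin 5) ≠ 0 := by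
      intro h0
      apply h
      have := congrArg Fin.val h0
      simp only [Fin.val_zero] at this
      apply Fin.ext
      omega
    have := hne _ hn0
    simp only [mask]
    rw [if_neg this]

theorem rots_mem {V : Submodule k (W → k)} (hT : StabT wt V) (hR : StabR r V) {F : W → k}
    (hF : F ∈ V) (m n : ℕ) : (fun w => mask wt m F (r^[n] w)) ∈ V :=
  hR.iter (hT F hF m) n

theorem linInd_rots (hr : r^[5] = id) {V : Submodule k (W → k)} (hT : StabT wt V)
    (hR : StabR r V) {F : W → k} (hF : F ∈ V) {w0 : W} (hw0 : F w0 ≠ 0)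
    (hne : ∀ j : Fin 5, j ≠ 0 → wt (r^[(j : ℕ)] w0) ≠ wt w0) :
    LinearIndependent k (fun j : Fin 5 =>
      (⟨fun w => mask wt (wt w0) F (r^[(j : ℕ)] w), rots_mem hT hR hF _ _⟩ : V)) := by
  rw [Fintype.linearIndependent_iff]
  intro c hc i
  have h1 := congrArg (fun v : V => (v : W → k) (r^[5 - (i : ℕ)] w0)) hc
  simp only [Submodule.coe_sum, Submodule.coe_smul, Finset.sum_apply, Pi.smul_apply,
    smul_eq_mul, ZeroMemClass.coe_zero, Pi.zero_apply] at h1
  have h2 : ∀ j : Fin 5, c j * mask wt (wt w0) F (r^[(j : ℕ)] (r^[5 - (i : ℕ)] w0)) =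
      if j = i then c i * F w0 else 0 := by
    intro j
    rw [mask_iter_apply hr hne F i j]
    split_ifs with h
    · rw [h]
    · rw [mul_zero]
  rw [Finset.sum_congr rfl (fun j _ => h2 j)] at h1
  simp only [Finset.sum_ite_eq', Finset.mem_univ, if_true] at h1
  exact (mul_eq_zero.1 h1).resolve_right hw0

theorem five_le_finrank [Finite W] (hr : r^[5] = id) {V : Submodule k (W → k)} (hT : StabT wt V)
    (hR : StabR r V) {F : W → k} (hF : F ∈ V) {w0 : W} (hw0 : F w0 ≠ 0)
    (hne : ∀ j : Fin 5, j ≠ 0 → wt (r^[(j : ℕ)] w0) ≠ wt w0) : 5 ≤ Module.finrank k V := by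
  have := (linInd_rots hr hT hR hF hw0 hne).fintype_card_le_finrank
  simpa using this

theorem exists_coeff [Finite W] (hr : r^[5] = id) {V : Submodule k (W → k)} (hT : StabT wt V)
    (hR : StabR r V) {F : W → k} (hF : F ∈ V) {w0 : W} (hw0 : F w0 ≠ 0)
    (hne : ∀ j : Fin 5, j ≠ 0 → wt (r^[(j : ℕ)] w0) ≠ wt w0) (h5 : Module.finrank k V = 5)
    {G : W → k} (hG : G ∈ V) :
    ∃ c : Fin 5 → k, G = fun w => ∑ j : Fin 5, c j * mask wt (wt w0) F (r^[(j : ℕ)] w) := by
  have hli := linInd_rots hr hT hR hF hw0 hne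
  have hsp := hli.span_eq_top_of_card_eq_finrank' (by simp [h5])
  have hmem : (⟨G, hG⟩ : V) ∈ Submodule.span k (Set.range fun j : Fin 5 =>
      (⟨fun w => mask wt (wt w0) F (r^[(j : ℕ)] w), rots_mem hT hR hF _ _⟩ : V)) := by
    rw [hsp]; trivial
  rw [Submodule.mem_span_range_iff_exists_fun] at hmem
  obtain ⟨c, hc⟩ := hmem
  refine ⟨c, ?_⟩
  have := congrArg (fun v : V => (v : W → k)) hc
  simp only [Submodule.coe_sum, Submodule.coe_smul] at this
  rw [← this]
  funext w
  simp [Finset.sum_apply]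

end Stab

/-! ## the spaces `C2`, `C3`, `C4` are stable -/

section Cn
variable (k : Type) [Field k]

theorem wt2_swap (a b : X) : wt2 (b, a) = wt2 (a, b) := by simp only [wt2]; omega
theorem wt3_swap (a b c : X) : wt3 (a, c, b) = wt3 (a, b, c) := by simp only [wt2, wt3]; omega
theorem wt3_cyc (a b c : X) : wt3 (b, c, a) = wt3 (a, b, c) := by simp only [wt2, wt3]; omega
theorem wt3_cyc' (a b c : X) : wt3 (c, a, b) = wt3 (a, b, c) := by simp only [wt2, wt3]; omega

theorem stabT_C2 : StabT wt2 (C2 k) := by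
  intro F hF j a b
  have h := hF a b
  rw [show (fun w => if wt2 w = j then F w else 0) (a, b) = if wt2 (a, b) = j then F (a, b) else 0
    from rfl, show (fun w => if wt2 w = j then F w else 0) (b, a) =
    if wt2 (b, a) = j then F (b, a) else 0 from rfl, wt2_swap]
  split_ifs
  · exact h
  · ring

theorem stabR_C2 : StabR rot2 (C2 k) := fun F hF a b => hF (rot a) (rot b)

theorem stabT_C3 : StabT wt3 (C3 k) := by
  intro F hF j
  refine ⟨fun a b c => ?_, fun a b c => ?_⟩
  · have h := hF.1 a b c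
    simp only [wt3_swap a b c]
    split_ifs
    · exact h
    · ring
  · have h := hF.2 a b c
    simp only [wt3_cyc a b c, wt3_cyc' a b c]
    split_ifs
    · exact h
    · ring

theorem stabR_C3 : StabR rot3 (C3 k) := fun F hF =>
  ⟨fun a b c => hF.1 (rot a) (rot b) (rot c), fun a b c => hF.2 (rot a) (rot b) (rot c)⟩

variable {k}

/-- derivative of a weight component -/
theorem deriv_mask3 (F : W3 → k) (j : ℕ) (x : X) :
    (fun w : W2 => mask wt3 j F (x, w)) =
      if wt x ≤ j then mask wt2 (j - wt x) (fun w => F (x, w)) else 0 := by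
  funext w
  by_cases h : wt x ≤ j
  · rw [if_pos h]
    have : (wt3 (x, w) = j) ↔ (wt2 w = j - wt x) := by simp only [wt3]; omega
    simp only [mask, this]
  · rw [if_neg h]
    have : ¬ (wt3 (x, w) = j) := by simp only [wt3]; omega
    simp only [mask, if_neg this, Pi.zero_apply]

theorem deriv_mask4 (F : W4 → k) (j : ℕ) (x : X) :
    (fun w : W3 => mask wt4 j F (x, w)) =
      if wt x ≤ j then mask wt3 (j - wt x) (fun w => F (x, w)) else 0 := by
  funext w
  by_cases h : wt x ≤ j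
  · rw [if_pos h]
    have : (wt4 (x, w) = j) ↔ (wt3 w = j - wt x) := by simp only [wt4]; omega
    simp only [mask, this]
  · rw [if_neg h]
    have : ¬ (wt4 (x, w) = j) := by simp only [wt4]; omega
    simp only [mask, if_neg this, Pi.zero_apply]

theorem stabT_C4 : StabT wt4 (C4 k) := by
  intro F hF j
  refine ⟨fun x => ?_, fun a b c d => ?_⟩
  · have := deriv_mask4 F j x
    rw [show (fun w : W3 => (fun w => if wt4 w = j then F w else 0) (x, w)) =
      fun w : W3 => mask wt4 j F (x, w) from rfl, this]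
    split_ifs
    · exact stabT_C3 k _ (hF.1 x) _
    · exact (C3 k).zero_mem
  · have h := hF.2 a b c d
    have e1 : wt4 (b, a, c, d) = wt4 (a, b, c, d) := by simp only [wt2, wt3, wt4]; omega
    have e2 : wt4 (c, d, a, b) = wt4 (a, b, c, d) := by simp only [wt2, wt3, wt4]; omega
    have e3 : wt4 (d, c, a, b) = wt4 (a, b, c, d) := by simp only [wt2, wt3, wt4]; omega
    simp only [e1, e2, e3]
    split_ifs
    · exact h
    · ring

theorem stabR_C4 : StabR rot4 (C4 k) := fun F hF =>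
  ⟨fun x => stabR_C3 k _ (hF.1 (rot x)), fun a b c d => hF.2 (rot a) (rot b) (rot c) (rot d)⟩

theorem stabT_D3 {V2 : Submodule k (W2 → k)} (h : StabT wt2 V2) : StabT wt3 (D3 V2) := by
  intro F hF j
  refine ⟨stabT_C3 k F hF.1 j, fun x => ?_⟩
  have := deriv_mask3 F j x
  rw [show (fun w : W2 => (fun w => if wt3 w = j then F w else 0) (x, w)) =
    fun w : W2 => mask wt3 j F (x, w) from rfl, this]
  split_ifs
  · exact h _ (hF.2 x) _
  · exact V2.zero_mem

theorem stabR_D3 {V2 : Submodule k (W2 → k)} (h : StabR rot2 V2) : StabR rot3 (D3 V2) :=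
  fun F hF => ⟨stabR_C3 k F hF.1, fun x => h _ (hF.2 (rot x))⟩

theorem stabT_D4 {V3 : Submodule k (W3 → k)} (h : StabT wt3 V3) : StabT wt4 (D4 V3) := by
  intro F hF j
  refine ⟨stabT_C4 F hF.1 j, fun x => ?_⟩
  have := deriv_mask4 F j x
  rw [show (fun w : W3 => (fun w => if wt4 w = j then F w else 0) (x, w)) =
    fun w : W3 => mask wt4 j F (x, w) from rfl, this]
  split_ifs
  · exact h _ (hF.2 x) _
  · exact V3.zero_mem

theorem stabR_D4 {V3 : Submodule k (W3 → k)} (h : StabR rot3 V3) : StabR rot4 (D4 V3) :=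
  fun F hF => ⟨stabR_C4 F hF.1, fun x => h _ (hF.2 (rot x))⟩

/-! ## no function lives on the content 5,...,5; lower bounds for dimensions -/

theorem C2_diag (h2 : (2 : k) ≠ 0) {F : W2 → k} (hF : F ∈ C2 k) (a : X) : F (a, a) = 0 := by
  have := hF a a
  have h : (2 : k) * F (a, a) = 0 := by linear_combination this
  exact (mul_eq_zero.1 h).resolve_left h2

theorem C3_diag (h2 : (2 : k) ≠ 0) {F : W3 → k} (hF : F ∈ C3 k) (a b : X) :
    F (a, b, b) = 0 := by
  have := hF.1 a b b
  have h : (2 : k) * F (a, b, b) = 0 := by linear_combination this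
  exact (mul_eq_zero.1 h).resolve_left h2

theorem C4_diag (h2 : (2 : k) ≠ 0) {F : W4 → k} (hF : F ∈ C4 k) (a b c : X) :
    F (a, b, c, c) = 0 := C3_diag h2 (hF.1 a) b c

theorem five_le2 (h2 : (2 : k) ≠ 0) {V : Submodule k (W2 → k)} (hC : V ≤ C2 k)
    (hT : StabT wt2 V) (hR : StabR rot2 V) (hV : V ≠ ⊥) : 5 ≤ Module.finrank k V := by
  obtain ⟨F, hF, hF0⟩ := Submodule.exists_mem_ne_zero_of_ne_bot hV
  obtain ⟨w, hw⟩ := Function.ne_iff.1 hF0
  refine five_le_finrank rot2_five hT hR hF hw (wt2_ne w ?_)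
  rintro rfl
  exact hw (C2_diag h2 (hC hF) 5)

theorem five_le3 (h2 : (2 : k) ≠ 0) {V : Submodule k (W3 → k)} (hC : V ≤ C3 k)
    (hT : StabT wt3 V) (hR : StabR rot3 V) (hV : V ≠ ⊥) : 5 ≤ Module.finrank k V := by
  obtain ⟨F, hF, hF0⟩ := Submodule.exists_mem_ne_zero_of_ne_bot hV
  obtain ⟨w, hw⟩ := Function.ne_iff.1 hF0
  refine five_le_finrank rot3_five hT hR hF hw (wt3_ne w ?_)
  rintro rfl
  exact hw (C3_diag h2 (hC hF) 5 5)

theorem five_le4 (h2 : (2 : k) ≠ 0) {V : Submodule k (W4 → k)} (hC : V ≤ C4 k)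
    (hT : StabT wt4 V) (hR : StabR rot4 V) (hV : V ≠ ⊥) : 5 ≤ Module.finrank k V := by
  obtain ⟨F, hF, hF0⟩ := Submodule.exists_mem_ne_zero_of_ne_bot hV
  obtain ⟨w, hw⟩ := Function.ne_iff.1 hF0
  refine five_le_finrank rot4_five hT hR hF hw (wt4_ne w ?_)
  rintro rfl
  exact hw (C4_diag h2 (hC hF) 5 5 5)

theorem two_ne (p : ℕ) [Fact p.Prime] (hp : 5 < p) : (2 : ZMod p) ≠ 0 := by
  intro h
  have h1 : ((2 : ℕ) : ZMod p) = 0 := by exact_mod_cast h
  rw [ZMod.natCast_eq_zero_iff] at h1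
  have := Nat.le_of_dvd (by norm_num) h1
  omega

end Cn

/-! ## sum of the weight components -/

section SumMask
variable {k : Type} [Field k] {W : Type}

theorem mem_of_masks (wt : W → ℕ) (hlt : ∀ w, wt w < 5 ^ 6) (V : Submodule k (W → k))
    (F : W → k) (h : ∀ j, mask wt j F ∈ V) : F ∈ V := by
  have : F = ∑ j ∈ Finset.range (5 ^ 6), mask wt j F := by
    funext w
    rw [Finset.sum_apply, Finset.sum_eq_single (wt w)]
    · simp [mask]
    · intro j _ hj
      simp only [mask]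
      rw [if_neg (fun h => hj h.symm)]
    · intro h
      exact absurd (Finset.mem_range.2 (hlt w)) h
  rw [this]
  exact Submodule.sum_mem _ fun j _ => h j

end SumMask

end Pool.Agent.W373.Unif
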