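import Pool.Agent.W373.Unif.CombE0

set_option autoImplicit false

namespace Pool.Agent.W373.Unif

section
variable {k : Type} [Field k]

/-- linear combination of the two explicit functions -/
def FK (i : Fin 4) (u v : k) (w : W4) : k := u * (K4 i 0 w : k) + v * (K4 i 1 w : k)

/-- rotated coordinates -/
def rc (i : Fin 4) (c : k × k) : k × k := if i = 0 ∨ i = 1 then (c.2, c.2 - c.1) else (c.2 - c.1, c.2)

theorem FK_mem (i : Fin 4) (u v : k) : (FK i u v) ∈ DT k i := by
  refine ⟨⟨fun x => ⟨fun a b c => ?_, fun a b c => ?_⟩, fun a b c d => ?_⟩, fun x w hw => ?_⟩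
  · have h0 := congrArg (Int.cast (R := k)) (K4_r1 i 0 x a b c)
    have h1 := congrArg (Int.cast (R := k)) (K4_r1 i 1 x a b c)
    push_cast at h0 h1
    simp only [FK]
    linear_combination u * h0 + v * h1
  · have h0 := congrArg (Int.cast (R := k)) (K4_r2 i 0 x a b c)
    have h1 := congrArg (Int.cast (R := k)) (K4_r2 i 1 x a b c)
    push_cast at h0 h1
    simp only [FK]
    linear_combination u * h0 + v * h1
  · have h0 := congrArg (Int.cast (R := k)) (K4_r3 i 0 a b c d)
    have h1 := congrArg (Int.cast (R := k)) (K4_r3 i 1 a b c d)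
    push_cast at h0 h1
    simp only [FK]
    linear_combination u * h0 + v * h1
  · simp only [FK, K4_tri i 0 x w hw, K4_tri i 1 x w hw, Int.cast_zero, mul_zero, add_zero]

theorem FK_wt (i : Fin 4) (u v : k) {w : W4} (h : FK i u v w ≠ 0) : wt4 w = wt4 (base4 i) := by
  by_contra hne
  apply h
  have h0 : K4 i 0 w = 0 := by
    by_contra h0; exact hne (K4_wt i 0 w h0)
  have h1 : K4 i 1 w = 0 := by
    by_contra h1; exact hne (K4_wt i 1 w h1)
  simp only [FK, h0, h1, Int.cast_zero, mul_zero, add_zero]

theorem FK_base (i : Fin 4) (u v : k) : FK i u v (base4 i) = u ∧ FK i u v (base4' i) = v := by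
  obtain ⟨h1, h2, h3, h4⟩ := K4_base i
  simp only [FK, h1, h2, h3, h4, Int.cast_zero, Int.cast_one, mul_zero, mul_one, add_zero,
    zero_add, and_self]

theorem FK_letters (i : Fin 4) (u v : k) {x : X} (hx : x ≠ 0) (hy : x ≠ yy i) (w : W3) :
    FK i u v (x, w) = 0 := by
  simp only [FK, K4_letters i 0 x w hx hy, K4_letters i 1 x w hx hy, Int.cast_zero, mul_zero,
    add_zero]

theorem FK_rot (i : Fin 4) (u v : k) (w : W3) :
    FK i u v (yy i, rot3^[5 - ss i] w) = FK i (rc i (u, v)).1 (rc i (u, v)).2 (0, w) := by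
  simp only [FK, K4_rot0, K4_rot1, rc]
  by_cases h : i = 0 ∨ i = 1
  · simp only [if_pos h]
    push_cast
    ring
  · simp only [if_neg h]
    push_cast
    ring

/-- uniqueness: a function in `DT i` of the content of the base word is determined by its values
on the two base words -/
theorem FK_unique (h2 : (2 : k) ≠ 0) (i : Fin 4) {F : W4 → k} (hF : F ∈ DT k i)
    (hs : ∀ w, wt4 w ≠ wt4 (base4 i) → F w = 0) :
    F = FK i (F (base4 i)) (F (base4' i)) := by
  obtain ⟨b1, b2, b3, b4, b5⟩ := base4_fst i
  set G := FK i (F (base4 i)) (F (base4' i)) with hG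
  have hGm : G ∈ DT k i := FK_mem i _ _
  set H : W4 → k := F - G with hH
  have hHm : H ∈ DT k i := (DT k i).sub_mem hF hGm
  have hHs : ∀ w, wt4 w ≠ wt4 (base4 i) → H w = 0 := by
    intro w hw
    have : G w = 0 := by
      by_contra h; exact hw (FK_wt i _ _ h)
    rw [hH, Pi.sub_apply, hs w hw, this, sub_zero]
  have e1 : H (base4 i) = 0 := by
    rw [hH, Pi.sub_apply, hG, (FK_base i _ _).1, sub_self]
  have e2 : H (base4' i) = 0 := by
    rw [hH, Pi.sub_apply, hG, (FK_base i _ _).2, sub_self]
  -- first letter 0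
  obtain ⟨b, c, e, hb, hb'⟩ : ∃ b c e : X, base4 i = (0, b, c, e) ∧ base4' i = (0, c, b, e) := by
    clear * -
    revert i; decide +kernel
  have c1 : ∀ w : W3, wt3 w = wt3 (base4 i).2 → H (0, w) = 0 := by
    intro w hw
    rw [hb] at hw e1
    rw [hb'] at e2
    have r := (hHm.1.1 0)
    have r1 := r.1 b c e
    have r2 := r.1 c b e
    have r3 := r.1 e b c
    have r4 := r.2 b c e
    simp only at r1 r2 r3 r4
    have f1 : H (0, b, e, c) = 0 := by linear_combination r1 - e1
    have f2 : H (0, c, e, b) = 0 := by linear_combination r2 - e2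
    have f3 : H (0, e, b, c) = 0 := by linear_combination r4 - e1 - f2
    have f4 : H (0, e, c, b) = 0 := by linear_combination r3 - f3
    obtain ⟨a1, b1, c1⟩ := w
    rcases wt3_perm b c e a1 b1 c1 hw with h | h | h | h | h | h <;> rw [h]
    · exact e1
    · exact f1
    · exact e2
    · exact f2
    · exact f3
    · exact f4
  have c2 : ∀ w : W4, w.1 ≠ yy i → H w = 0 := by
    intro w hy
    by_cases hw : wt4 w = wt4 (base4 i)
    · rcases base4_shape i w hw with h | h | h
      · obtain ⟨x, w'⟩ := w
        have hx : x = 0 := h.1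
        subst hx
        exact c1 w' h.2
      · exact hHm.2 w.1 w.2 h.2
      · exact absurd h.1 hy
    · exact hHs w hw
  have c3 : H = 0 := by
    funext w
    by_cases hy : w.1 = yy i
    · by_cases hw : wt4 w = wt4 (base4 i)
      · rcases base4_shape i w hw with h | h | h
        · exact absurd (hy.symm.trans h.1) b5
        · exact absurd hy h.1
        · obtain ⟨x, q, r, s⟩ := w
          have rel := hHm.1.2 x q r s
          have g1 := c2 (q, x, r, s) h.2.1
          have g2 := c2 (r, s, x, q) h.2.2.1
          have g3 := c2 (s, r, x, q) h.2.2.2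
          change H (x, q, r, s) = 0
          linear_combination rel + g1 - g2 + g3
      · exact hHs w hw
    · exact c2 w hy
  have : F = G + H := by rw [hH]; abel
  rw [this, c3, add_zero]

/-! ## the spaces attached to points of the projective line -/

/-- normalised coordinates of the points of the projective line -/
def uv (o : Option k) : k × k := match o with
  | none => (1, 0)
  | some t => (t, 1)

/-- the function attached to a point -/
def Fo (i : Fin 4) (o : Option k) : W4 → k := FK i (uv o).1 (uv o).2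

/-- the space attached to a point -/
def Vo (i : Fin 4) (o : Option k) : Submodule k (W4 → k) :=
  Submodule.span k (Set.range fun j : Fin 5 => fun w => Fo i o (rot4^[(j : ℕ)] w))

/-- the quadratic form -/
def Qo (i : Fin 4) (o : Option k) : k := (uv o).1 * (rc i (uv o)).2 - (uv o).2 * (rc i (uv o)).1

theorem uv_ne (o : Option k) : (uv o).1 ≠ 0 ∨ (uv o).2 ≠ 0 := by
  cases o with
  | none => left; exact one_ne_zero
  | some t => right; exact one_ne_zero

theorem Fo_mem_DT (i : Fin 4) (o : Option k) : Fo i o ∈ DT k i := FK_mem i _ _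

theorem Fo_mem_Vo (i : Fin 4) (o : Option k) : Fo i o ∈ Vo i o :=
  Submodule.subset_span ⟨0, rfl⟩

theorem Vo_le (i : Fin 4) (o : Option k) {V : Submodule k (W4 → k)} (hR : StabR rot4 V)
    (h : Fo i o ∈ V) : Vo i o ≤ V := by
  rw [Vo, Submodule.span_le]
  rintro _ ⟨j, rfl⟩
  exact hR.iter h _

theorem exists_ne (i : Fin 4) (o : Option k) :
    ∃ w : W4, wt4 w = wt4 (base4 i) ∧ w.1 = 0 ∧ wt3 w.2 = wt3 (base4 i).2 ∧ Fo i o w ≠ 0 := by
  obtain ⟨b1, b2, b3, b4, b5⟩ := base4_fst i
  rcases uv_ne o with h | h
  · exact ⟨base4 i, rfl, b1, rfl, by rw [Fo, (FK_base i _ _).1]; exact h⟩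
  · exact ⟨base4' i, b4, b2, b3, by rw [Fo, (FK_base i _ _).2]; exact h⟩

theorem Vo_stabR (i : Fin 4) (o : Option k) : StabR rot4 (Vo i o) := by
  intro F hF
  induction hF using Submodule.span_induction with
  | mem F hF =>
    obtain ⟨j, rfl⟩ := hF
    have hlt : ((j : ℕ) + 1) % 5 < 5 := Nat.mod_lt _ (by norm_num)
    apply Submodule.subset_span
    refine ⟨⟨((j : ℕ) + 1) % 5, hlt⟩, ?_⟩
    funext w
    change Fo i o (rot4^[((j : ℕ) + 1) % 5] w) = Fo i o (rot4^[(j : ℕ)] (rot4 w))
    rw [← iter_mod rot4_five, Function.iterate_succ_apply]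
  | zero => exact (Vo i o).zero_mem
  | add G H _ _ hG hH => exact (Vo i o).add_mem hG hH
  | smul c G _ hG => exact (Vo i o).smul_mem c hG

theorem Vo_stabT (i : Fin 4) (o : Option k) : StabT wt4 (Vo i o) := by
  intro F hF m
  induction hF using Submodule.span_induction with
  | mem F hF =>
    obtain ⟨j, rfl⟩ := hF
    have hfix : ∀ w, Fo i o (rot4^[(j : ℕ)] w) ≠ 0 →
        wt4 w = wt4 (rot4^[5 - (j : ℕ)] (base4 i)) := by
      intro w hw
      have h1 := FK_wt i _ _ hw
      have h2 : wt4 (rot4^[5 - (j : ℕ)] (rot4^[(j : ℕ)] w)) =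
          wt4 (rot4^[5 - (j : ℕ)] (base4 i)) := by
        rw [wt_iter wt4_rot, wt_iter wt4_rot (5 - (j : ℕ)) (base4 i), h1]
      rw [← Function.iterate_add_apply] at h2
      have : 5 - (j : ℕ) + j = 5 := by omega
      rw [this, rot4_five] at h2
      exact h2
    by_cases hm : m = wt4 (rot4^[5 - (j : ℕ)] (base4 i))
    · have : (fun w => if wt4 w = m then Fo i o (rot4^[(j : ℕ)] w) else 0) =
          fun w => Fo i o (rot4^[(j : ℕ)] w) := by
        funext w
        split_ifs with h
        · rfl
        · by_contra hne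
          exact h ((hfix w (Ne.symm hne)).trans hm.symm)
      rw [this]
      exact Submodule.subset_span ⟨j, rfl⟩
    · have : (fun w => if wt4 w = m then Fo i o (rot4^[(j : ℕ)] w) else 0) = 0 := by
        funext w
        split_ifs with h
        · by_contra hne
          exact hm (h.symm.trans (hfix w hne))
        · rfl
      rw [this]
      exact (Vo i o).zero_mem
  | zero =>
    have : (fun w => if wt4 w = m then (0 : W4 → k) w else 0) = 0 := by
      funext w; simp
    rw [this]
    exact (Vo i o).zero_mem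
  | add G H _ _ hG hH =>
    have : (fun w => if wt4 w = m then (G + H) w else 0) =
        (fun w => if wt4 w = m then G w else 0) + fun w => if wt4 w = m then H w else 0 := by
      funext w
      simp only [Pi.add_apply]
      split_ifs
      · rfl
      · ring
    rw [this]
    exact (Vo i o).add_mem hG hH
  | smul c G _ hG =>
    have : (fun w => if wt4 w = m then (c • G) w else 0) =
        c • (fun w => if wt4 w = m then G w else 0) := by
      funext w
      simp only [Pi.smul_apply]
      split_ifs
      · rfl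
      · simp
    rw [this]
    exact (Vo i o).smul_mem c hG

theorem base_ne5 (i : Fin 4) : wt4 (base4 i) ≠ wt4 (5, 5, 5, 5) := by
  revert i; decide +kernel

theorem Vo_finrank (i : Fin 4) (o : Option k) : Module.finrank k (Vo i o) = 5 := by
  apply le_antisymm
  · calc Module.finrank k (Vo i o) ≤ Fintype.card (Fin 5) :=
          finrank_range_le_card (R := k) (fun j : Fin 5 => fun w => Fo i o (rot4^[(j : ℕ)] w))
      _ = 5 := by simp
  · obtain ⟨w, hw, -, -, hne⟩ := exists_ne i o
    refine five_le_finrank rot4_five (Vo_stabT i o) (Vo_stabR i o) (Fo_mem_Vo i o) hne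
      (wt4_ne w ?_)
    rintro rfl
    exact base_ne5 i hw.symm

theorem ss_lt (i : Fin 4) : ss i < 5 := by revert i; decide

/-- if the quadratic form vanishes, the derivative space has dimension at most five -/
theorem dV_le5 (i : Fin 4) (o : Option k) (hQ : Qo i o = 0) :
    Module.finrank k (dV (Vo i o)) ≤ 5 := by
  obtain ⟨lam, hl1, hl2⟩ : ∃ lam : k, (rc i (uv o)).1 = lam * (uv o).1 ∧
      (rc i (uv o)).2 = lam * (uv o).2 := by
    unfold Qo at hQ
    rcases uv_ne o with h | h
    · refine ⟨(rc i (uv o)).1 / (uv o).1, by field_simp, ?_⟩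
      field_simp
      linear_combination hQ
    · refine ⟨(rc i (uv o)).2 / (uv o).2, ?_, by field_simp⟩
      field_simp
      linear_combination -hQ
  have hle : dV (Vo i o) ≤ Submodule.span k
      (Set.range fun j : Fin 5 => fun w : W3 => Fo i o (0, rot3^[(j : ℕ)] w)) := by
    rw [dV_le_iff]
    intro F hF x
    induction hF using Submodule.span_induction with
    | mem F hF =>
      obtain ⟨j, rfl⟩ := hF
      have hsplit : ∀ (n : ℕ) (x : X) (w : W3), rot4^[n] (x, w) = (rot^[n] x, rot3^[n] w) := by
        intro n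
        induction n with
        | zero => intro x w; rfl
        | succ n ih =>
          intro x w
          rw [Function.iterate_succ_apply, Function.iterate_succ_apply,
            Function.iterate_succ_apply]
          exact ih _ _
      simp only [hsplit]
      by_cases h0 : rot^[(j : ℕ)] x = 0
      · rw [h0]
        exact Submodule.subset_span ⟨j, rfl⟩
      · by_cases hy : rot^[(j : ℕ)] x = yy i
        · rw [hy]
          have hlt : ((j : ℕ) + ss i) % 5 < 5 := Nat.mod_lt _ (by norm_num)
          have hss := ss_lt i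
          have : (fun w : W3 => Fo i o (yy i, rot3^[(j : ℕ)] w)) =
              lam • fun w : W3 => Fo i o (0, rot3^[((j : ℕ) + ss i) % 5] w) := by
            funext w
            have e : rot3^[(j : ℕ)] w = rot3^[5 - ss i] (rot3^[((j : ℕ) + ss i) % 5] w) := by
              rw [← Function.iterate_add_apply, iter_mod rot3_five (j : ℕ),
                iter_mod rot3_five (5 - ss i + _)]
              congr 1
              omega
            rw [e]
            simp only [Pi.smul_apply, smul_eq_mul, Fo]
            rw [FK_rot, hl1, hl2]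
            simp only [FK]
            ring
          rw [this]
          exact Submodule.smul_mem _ _ (Submodule.subset_span ⟨⟨_, hlt⟩, rfl⟩)
        · have : (fun w : W3 => Fo i o (rot^[(j : ℕ)] x, rot3^[(j : ℕ)] w)) = 0 := by
            funext w
            exact FK_letters i _ _ h0 hy _
          rw [this]
          exact Submodule.zero_mem _
    | zero => exact Submodule.zero_mem _
    | add G H _ _ hG hH => exact Submodule.add_mem _ hG hH
    | smul c G _ hG => exact Submodule.smul_mem _ c hG
  refine (Submodule.finrank_mono hle).trans ?_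
  calc Module.finrank k (Submodule.span k
        (Set.range fun j : Fin 5 => fun w : W3 => Fo i o (0, rot3^[(j : ℕ)] w))) ≤
        Fintype.card (Fin 5) := finrank_range_le_card (R := k)
          (fun j : Fin 5 => fun w : W3 => Fo i o (0, rot3^[(j : ℕ)] w))
    _ = 5 := by simp

/-- if the derivative space has dimension five, the quadratic form vanishes -/
theorem Q_of_dV5 (i : Fin 4) (o : Option k) (h5 : Module.finrank k (dV (Vo i o)) = 5) :
    Qo i o = 0 := by
  obtain ⟨w0, hw0, hw01, hw02, hw0ne⟩ := exists_ne i o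
  obtain ⟨x0, w1⟩ := w0
  have hx0 : x0 = 0 := hw01
  subst hx0
  have hw1 : wt3 w1 = wt3 (base4 i).2 := hw02
  have hG : (fun w : W3 => Fo i o (0, w)) ∈ dV (Vo i o) :=
    Submodule.subset_span ⟨_, Fo_mem_Vo i o, 0, rfl⟩
  have hH0 : (fun w : W3 => Fo i o (yy i, w)) ∈ dV (Vo i o) :=
    Submodule.subset_span ⟨_, Fo_mem_Vo i o, yy i, rfl⟩
  have hH := (stabR_dV (Vo_stabR i o)).iter hH0 (5 - ss i)
  have hne5 : ∀ w : W3, wt3 w = wt3 (base4 i).2 → w ≠ (5, 5, 5) := by
    intro w hw
    have : wt3 (base4 i).2 ≠ wt3 (5, 5, 5) := by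
      clear * -
      revert i; decide +kernel
    rintro rfl
    exact this hw.symm
  obtain ⟨cc, hcc⟩ := exists_coeff rot3_five (stabT_dV (Vo_stabT i o)) (stabR_dV (Vo_stabR i o))
    hG hw0ne (wt3_ne w1 (hne5 w1 hw1)) h5 hH
  have hev : ∀ w : W3, wt3 w = wt3 (base4 i).2 →
      (∑ j : Fin 5, cc j * mask wt3 (wt3 w1) (fun w : W3 => Fo i o (0, w)) (rot3^[(j : ℕ)] w)) =
        cc 0 * Fo i o (0, w) := by
    intro w hw
    rw [Finset.sum_eq_single 0]
    · simp [mask, hw, hw1]
    · intro j _ hj
      have h1 := wt3_ne w (hne5 w hw) j hj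
      have : ¬ (wt3 (rot3^[(j : ℕ)] w) = wt3 w1) := fun h => h1 (h.trans (hw1.trans hw.symm))
      simp only [mask, if_neg this, mul_zero]
    · intro h; exact absurd (Finset.mem_univ _) h
  obtain ⟨b1, b2, b3, b4, b5⟩ := base4_fst i
  have v1 := congrFun hcc (base4 i).2
  have v2 := congrFun hcc (base4' i).2
  rw [hev _ rfl] at v1
  rw [hev _ b3] at v2
  have p1 : (0, (base4 i).2) = base4 i := by rw [← b1]
  have p2 : (0, (base4' i).2) = base4' i := by rw [← b2]
  simp only [Fo] at v1 v2
  rw [FK_rot, p1, (FK_base i _ _).1, (FK_base i _ _).1] at v1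
  rw [FK_rot, p2, (FK_base i _ _).2, (FK_base i _ _).2] at v2
  unfold Qo
  rw [v1, v2]
  ring

theorem dV5_iff (h2 : (2 : k) ≠ 0) (i : Fin 4) (o : Option k) :
    Module.finrank k (dV (Vo i o)) = 5 ↔ Qo i o = 0 := by
  constructor
  · exact Q_of_dV5 i o
  · intro hQ
    apply le_antisymm (dV_le5 i o hQ)
    have hne : Vo i o ≠ ⊥ := by
      intro h
      have := Vo_finrank i o
      rw [h, finrank_bot] at this
      omega
    have hC4 : Vo i o ≤ C4 k := (Vo_le i o (stabR_DT i) (Fo_mem_DT i o)).trans fun F hF => hF.1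
    refine five_le3 h2 ?_ (stabT_dV (Vo_stabT i o)) (stabR_dV (Vo_stabR i o)) (dV_ne_bot hne)
    rw [dV_le_iff]
    intro F hF x
    exact (hC4 hF).1 x

end

end Pool.Agent.W373.Unif
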