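import Pool.Agent.W373.Unif.CombN

set_option autoImplicit false

namespace Pool.Agent.W373.Unif

/-! ## explicit integer functions -/

/-- base words of length four -/
def base4 (i : Fin 4) : W4 :=
  (![(0, 1, 2, 5), (0, 2, 4, 5), (0, 1, 2, 3), (0, 2, 4, 1)] : Fin 4 → W4) i

/-- second coordinate word -/
def base4' (i : Fin 4) : W4 :=
  (![(0, 2, 1, 5), (0, 4, 2, 5), (0, 2, 1, 3), (0, 4, 2, 1)] : Fin 4 → W4) i

/-- second letter -/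
def yy (i : Fin 4) : X := (![2, 4, 3, 1] : Fin 4 → X) i

/-- rotation number -/
def ss (i : Fin 4) : ℕ := (![1, 2, 1, 2] : Fin 4 → ℕ) i

/-- tables -/
def tb (i : Fin 4) (j : Fin 2) : List (W4 × ℤ) :=
  (![![[((0, 1, 2, 5), 1), ((0, 1, 5, 2), -1), ((0, 5, 1, 2), -1), ((0, 5, 2, 1), 1),
       ((2, 1, 0, 5), -1), ((2, 1, 5, 0), 1), ((2, 5, 0, 1), -1), ((2, 5, 1, 0), 1)],
      [((0, 2, 1, 5), 1), ((0, 2, 5, 1), -1), ((0, 5, 1, 2), 1), ((0, 5, 2, 1), -1),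
       ((2, 0, 1, 5), 1), ((2, 0, 5, 1), -1), ((2, 1, 0, 5), 1), ((2, 1, 5, 0), -1)]],
     ![[((0, 2, 4, 5), 1), ((0, 2, 5, 4), -1), ((0, 5, 2, 4), -1), ((0, 5, 4, 2), 1),
       ((4, 2, 0, 5), -1), ((4, 2, 5, 0), 1), ((4, 5, 0, 2), -1), ((4, 5, 2, 0), 1)],
      [((0, 4, 2, 5), 1), ((0, 4, 5, 2), -1), ((0, 5, 2, 4), 1), ((0, 5, 4, 2), -1),
       ((4, 0, 2, 5), 1), ((4, 0, 5, 2), -1), ((4, 2, 0, 5), 1), ((4, 2, 5, 0), -1)]],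
     ![[((0, 1, 2, 3), 1), ((0, 1, 3, 2), -1), ((0, 3, 1, 2), -1), ((0, 3, 2, 1), 1),
       ((3, 0, 1, 2), -1), ((3, 0, 2, 1), 1), ((3, 2, 0, 1), 1), ((3, 2, 1, 0), -1)],
      [((0, 2, 1, 3), 1), ((0, 2, 3, 1), -1), ((0, 3, 1, 2), 1), ((0, 3, 2, 1), -1),
       ((3, 0, 1, 2), 1), ((3, 0, 2, 1), -1), ((3, 1, 0, 2), 1), ((3, 1, 2, 0), -1)]],
     ![[((0, 1, 2, 4), -1), ((0, 1, 4, 2), 1), ((0, 2, 1, 4), -1), ((0, 2, 4, 1), 1),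
       ((1, 0, 2, 4), -1), ((1, 0, 4, 2), 1), ((1, 4, 0, 2), 1), ((1, 4, 2, 0), -1)],
      [((0, 1, 2, 4), 1), ((0, 1, 4, 2), -1), ((0, 4, 1, 2), -1), ((0, 4, 2, 1), 1),
       ((1, 0, 2, 4), 1), ((1, 0, 4, 2), -1), ((1, 2, 0, 4), 1), ((1, 2, 4, 0), -1)]]] :
    Fin 4 → Fin 2 → List (W4 × ℤ)) i j

/-- explicit functions -/
def K4 (i : Fin 4) (j : Fin 2) (w : W4) : ℤ := ((tb i j).lookup w).getD 0

theorem K4_r1 : ∀ (i : Fin 4) (j : Fin 2) (x a b c : X),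
    K4 i j (x, a, b, c) + K4 i j (x, a, c, b) = 0 := by decide +kernel
theorem K4_r2 : ∀ (i : Fin 4) (j : Fin 2) (x a b c : X),
    K4 i j (x, a, b, c) + K4 i j (x, b, c, a) + K4 i j (x, c, a, b) = 0 := by decide +kernel
theorem K4_r3 : ∀ (i : Fin 4) (j : Fin 2) (a b c d : X),
    K4 i j (a, b, c, d) - K4 i j (b, a, c, d) + K4 i j (c, d, a, b) - K4 i j (d, c, a, b) = 0 := by
  decide +kernel
theorem K4_tri : ∀ (i : Fin 4) (j : Fin 2) (x : X) (w : W3), ¬ tri i w → K4 i j (x, w) = 0 := by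
  decide +kernel
theorem K4_wt : ∀ (i : Fin 4) (j : Fin 2) (w : W4), K4 i j w ≠ 0 → wt4 w = wt4 (base4 i) := by
  decide +kernel
theorem K4_base : ∀ i : Fin 4, K4 i 0 (base4 i) = 1 ∧ K4 i 0 (base4' i) = 0 ∧
    K4 i 1 (base4 i) = 0 ∧ K4 i 1 (base4' i) = 1 := by decide +kernel
theorem K4_letters : ∀ (i : Fin 4) (j : Fin 2) (x : X) (w : W3), x ≠ 0 → x ≠ yy i →
    K4 i j (x, w) = 0 := by decide +kernel
theorem K4_rot0 : ∀ (i : Fin 4) (w : W3), K4 i 0 (yy i, rot3^[5 - ss i] w) =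
    if i = 0 ∨ i = 1 then - K4 i 1 (0, w) else - K4 i 0 (0, w) := by decide +kernel
theorem K4_rot1 : ∀ (i : Fin 4) (w : W3), K4 i 1 (yy i, rot3^[5 - ss i] w) =
    K4 i 0 (0, w) + K4 i 1 (0, w) := by decide +kernel

theorem base4_fst : ∀ i : Fin 4, (base4 i).1 = 0 ∧ (base4' i).1 = 0 ∧
    wt3 (base4' i).2 = wt3 (base4 i).2 ∧ wt4 (base4' i) = wt4 (base4 i) ∧ yy i ≠ 0 := by
  decide +kernel

theorem base4_shape : ∀ (i : Fin 4) (w : W4), wt4 w = wt4 (base4 i) →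
    (w.1 = 0 ∧ wt3 w.2 = wt3 (base4 i).2) ∨ (w.1 ≠ yy i ∧ ¬ tri i w.2) ∨
    (w.1 = yy i ∧ w.2.1 ≠ yy i ∧ w.2.2.1 ≠ yy i ∧ w.2.2.2 ≠ yy i) := by
  decide +kernel

theorem double : ∀ (i : Fin 4) (x y s t : X), x ≠ y → tri i (y, s, t) → tri i (x, s, t) →
    ∃ n : Fin 5, wt4 (rot4^[(n : ℕ)] (x, y, s, t)) = wt4 (base4 i) := by
  decide +kernel

theorem dig : ∀ (y : X) (w : W4), (wt4 w / 5 ^ (y : ℕ) % 5 ≠ 0 ↔
    w.1 = y ∨ w.2.1 = y ∨ w.2.2.1 = y ∨ w.2.2.2 = y) := by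
  decide +kernel

end Pool.Agent.W373.Unif
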