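import Pool.Agent.W373.Unif.Basic

set_option autoImplicit false

namespace Pool.Agent.W373.Unif

/-! ## combinatorics of triples and pairs -/

theorem tri_of_ne : ∀ a b c : X, a ≠ b → b ≠ c → a ≠ c → ∃ i : Fin 4, tri i (a, b, c) := by
  decide +kernel

theorem tri_wt {i : Fin 4} {w w' : W3} (h : wt3 w = wt3 w') (hw : tri i w) : tri i w' := by
  obtain ⟨j, hj⟩ := hw
  exact ⟨j, h ▸ hj⟩

theorem tri_rot (i : Fin 4) : ∀ w : W3, tri i (rot3 w) ↔ tri i w := by
  revert i; decide +kernel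

theorem pairT_rot (i : Fin 4) : ∀ w : W2, pairT i (rot2 w) ↔ pairT i w := by
  revert i; decide +kernel

theorem pairT_swap (i : Fin 4) : ∀ a b : X, pairT i (a, b) ↔ pairT i (b, a) := by
  revert i; decide +kernel

theorem tri_ne : ∀ (i : Fin 4) (a b c : X), tri i (a, b, c) → a ≠ b ∧ b ≠ c ∧ a ≠ c := by
  decide +kernel

theorem pairT_cases : ∀ (i : Fin 4) (a b c : X), tri i (a, b, c) → ∀ x y : X,
    pairT i (x, y) → ∃ n : Fin 5, wt2 (rot2^[(n : ℕ)] (a, b)) = wt2 (x, y) ∨
      wt2 (rot2^[(n : ℕ)] (b, c)) = wt2 (x, y) ∨ wt2 (rot2^[(n : ℕ)] (c, a)) = wt2 (x, y) := by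
  decide +kernel

/-- index set of a basis of `CP i` -/
def PairIdx (i : Fin 4) : Type := {w : W2 // w.1 < w.2 ∧ pairT i w}

instance (i : Fin 4) : Fintype (PairIdx i) := by unfold PairIdx; infer_instance

theorem card_pairIdx : ∀ i : Fin 4, Fintype.card (PairIdx i) = 10 := by decide +kernel

section
variable {k : Type} [Field k]

theorem mem_CP {i : Fin 4} {F : W2 → k} :
    F ∈ CP k i ↔ F ∈ C2 k ∧ ∀ w, ¬ pairT i w → F w = 0 := Iff.rfl

/-- `CP i` has dimension ten -/
noncomputable def cpEquiv (h2 : (2 : k) ≠ 0) (i : Fin 4) : CP k i ≃ₗ[k] (PairIdx i → k) where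
  toFun F := fun w => (F : W2 → k) w.1
  map_add' F G := rfl
  map_smul' c F := rfl
  invFun g := ⟨fun w => if h : w.1 < w.2 ∧ pairT i w then g ⟨w, h⟩ else
      if h : w.2 < w.1 ∧ pairT i (w.2, w.1) then - g ⟨(w.2, w.1), h⟩ else 0, by
    refine ⟨fun a b => ?_, fun w hw => ?_⟩
    · by_cases h1 : a < b ∧ pairT i (a, b)
      · have h2 : ¬ (b < a ∧ pairT i (b, a)) := fun h => absurd h.1 (not_lt_of_gt h1.1)
        simp only [dif_pos h1, dif_neg h2]
        ring
      · by_cases h2 : b < a ∧ pairT i (b, a)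
        · simp only [dif_neg h1, dif_pos h2]
          ring
        · simp only [dif_neg h1, dif_neg h2]
          ring
    · have h1 : ¬ (w.1 < w.2 ∧ pairT i w) := fun h => hw h.2
      have h2 : ¬ (w.2 < w.1 ∧ pairT i (w.2, w.1)) := fun h => hw ((pairT_swap i _ _).1 h.2)
      simp only [dif_neg h1, dif_neg h2]⟩
  left_inv F := by
    apply Subtype.ext
    funext w
    obtain ⟨a, b⟩ := w
    have hF := F.2
    rw [mem_CP] at hF
    by_cases h1 : a < b ∧ pairT i (a, b)
    · simp only [dif_pos h1]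
    · by_cases h3 : b < a ∧ pairT i (b, a)
      · simp only [dif_neg h1, dif_pos h3]
        have := hF.1 a b
        linear_combination -this
      · simp only [dif_neg h1, dif_neg h3]
        by_cases hp : pairT i (a, b)
        · have hab : a = b := by
            rcases lt_trichotomy a b with h | h | h
            · exact absurd ⟨h, hp⟩ h1
            · exact h
            · exact absurd ⟨h, (pairT_swap i _ _).1 hp⟩ h3
          subst hab
          exact (C2_diag h2 hF.1 a).symm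
        · exact (hF.2 _ hp).symm
  right_inv g := by
    funext w
    simp only [dif_pos w.2]
    rfl

theorem finrank_CP (h2 : (2 : k) ≠ 0) (i : Fin 4) : Module.finrank k (CP k i) = 10 := by
  rw [(cpEquiv h2 i).finrank_eq, Module.finrank_fintype_fun_eq_card, card_pairIdx]

theorem stabT_CP (i : Fin 4) : StabT wt2 (CP k i) := by
  intro F hF j
  refine ⟨stabT_C2 k F hF.1 j, fun w hw => ?_⟩
  simp only [hF.2 w hw, ite_self]

theorem stabR_CP (i : Fin 4) : StabR rot2 (CP k i) := by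
  intro F hF
  refine ⟨stabR_C2 k F hF.1, fun w hw => hF.2 _ fun h => hw ((pairT_rot i w).1 h)⟩

theorem stabT_DT (i : Fin 4) : StabT wt4 (DT k i) := by
  intro F hF j
  refine ⟨stabT_C4 F hF.1 j, fun x w hw => ?_⟩
  simp only [hF.2 x w hw, ite_self]

theorem stabR_DT (i : Fin 4) : StabR rot4 (DT k i) := by
  intro F hF
  refine ⟨stabR_C4 F hF.1, fun x w hw => hF.2 _ _ fun h => hw ((tri_rot i w).1 h)⟩

/-! ## derivatives -/

theorem stabT_dV {V4 : Submodule k (W4 → k)} (hT : StabT wt4 V4) : StabT wt3 (dV V4) := by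
  intro G hG j
  induction hG using Submodule.span_induction with
  | mem G hG =>
    obtain ⟨F, hF, x, rfl⟩ := hG
    apply Submodule.subset_span
    refine ⟨_, hT F hF (j + wt x), x, ?_⟩
    funext w
    have : (wt3 w = j) ↔ (wt4 (x, w) = j + wt x) := by simp only [wt4]; omega
    simp only [this]
  | zero =>
    have : (fun w => if wt3 w = j then (0 : W3 → k) w else 0) = 0 := by
      funext w; simp
    rw [this]
    exact (dV V4).zero_mem
  | add G H _ _ hG hH =>
    have : (fun w => if wt3 w = j then (G + H) w else 0) =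
        (fun w => if wt3 w = j then G w else 0) + fun w => if wt3 w = j then H w else 0 := by
      funext w
      simp only [Pi.add_apply]
      split_ifs
      · rfl
      · ring
    rw [this]
    exact (dV V4).add_mem hG hH
  | smul c G _ hG =>
    have : (fun w => if wt3 w = j then (c • G) w else 0) =
        c • (fun w => if wt3 w = j then G w else 0) := by
      funext w
      simp only [Pi.smul_apply]
      split_ifs
      · rfl
      · simp
    rw [this]
    exact (dV V4).smul_mem c hG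

theorem stabR_dV {V4 : Submodule k (W4 → k)} (hR : StabR rot4 V4) : StabR rot3 (dV V4) := by
  intro G hG
  induction hG using Submodule.span_induction with
  | mem G hG =>
    obtain ⟨F, hF, x, rfl⟩ := hG
    apply Submodule.subset_span
    refine ⟨_, hR F hF, rot^[4] x, ?_⟩
    funext w
    have : rot (rot^[4] x) = x := by
      rw [← Function.iterate_succ_apply' rot 4 x]
      exact congrFun rot_five x
    change F (x, rot3 w) = F (rot (rot^[4] x), rot3 w)
    rw [this]
  | zero => exact (dV V4).zero_mem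
  | add G H _ _ hG hH => exact (dV V4).add_mem hG hH
  | smul c G _ hG => exact (dV V4).smul_mem c hG

theorem dV_le_iff {V4 : Submodule k (W4 → k)} {V3 : Submodule k (W3 → k)} :
    dV V4 ≤ V3 ↔ ∀ F ∈ V4, ∀ x : X, (fun w : W3 => F (x, w)) ∈ V3 := by
  rw [dV, Submodule.span_le]
  constructor
  · intro h F hF x
    exact h ⟨F, hF, x, rfl⟩
  · rintro h G ⟨F, hF, x, rfl⟩
    exact h F hF x

theorem dV_ne_bot {V4 : Submodule k (W4 → k)} (h : V4 ≠ ⊥) : dV V4 ≠ ⊥ := by
  obtain ⟨F, hF, hF0⟩ := Submodule.exists_mem_ne_zero_of_ne_bot h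
  obtain ⟨⟨x, w⟩, hw⟩ := Function.ne_iff.1 hF0
  intro h0
  have : (fun w : W3 => F (x, w)) ∈ dV V4 := Submodule.subset_span ⟨F, hF, x, rfl⟩
  rw [h0, Submodule.mem_bot] at this
  exact hw (congrFun this w)

/-! ## one dimensional contents -/

/-- if all functions in `D3 V2` vanish on `(a, b, c)` then the part of `D3 V2` of that content
has dimension at most one -/
theorem vanish {V2 : Submodule k (W2 → k)} {a b c : X}
    (hbad : ∀ K ∈ D3 V2, K (a, b, c) = 0) {G H : W3 → k} (hG : G ∈ D3 V2) (hH : H ∈ D3 V2)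
    (hHs : ∀ w, wt3 w ≠ wt3 (a, b, c) → H w = 0) {w1 : W3} (hw1 : wt3 w1 = wt3 (a, b, c))
    (hG1 : G w1 ≠ 0) (hH1 : H w1 = 0) : H = 0 := by
  have g1 := hbad G hG
  have g2 := hG.1.1 a b c
  have g3 := hG.1.1 b c a
  have g4 := hG.1.1 c a b
  have g5 := hG.1.2 a b c
  have k1 := hbad H hH
  have k2 := hH.1.1 a b c
  have k3 := hH.1.1 b c a
  have k4 := hH.1.1 c a b
  have k5 := hH.1.2 a b c
  have hall : H (a, b, c) = 0 ∧ H (a, c, b) = 0 ∧ H (b, a, c) = 0 ∧ H (b, c, a) = 0 ∧
      H (c, a, b) = 0 ∧ H (c, b, a) = 0 := by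
    have k6 : H (a, c, b) = 0 := by linear_combination k2 - k1
    have g6 : G (a, c, b) = 0 := by linear_combination g2 - g1
    obtain ⟨a1, b1, c1⟩ := w1
    rcases wt3_perm a b c a1 b1 c1 hw1 with h | h | h | h | h | h
    · rw [h] at hG1; exact absurd g1 hG1
    · rw [h] at hG1; exact absurd g6 hG1
    · rw [h] at hH1
      have e1 : H (b, c, a) = 0 := by linear_combination k3 - hH1
      have e2 : H (c, a, b) = 0 := by linear_combination k5 - k1 - e1
      exact ⟨k1, k6, hH1, e1, e2, by linear_combination k4 - e2⟩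
    · rw [h] at hH1
      have e1 : H (b, a, c) = 0 := by linear_combination k3 - hH1
      have e2 : H (c, a, b) = 0 := by linear_combination k5 - k1 - hH1
      exact ⟨k1, k6, e1, hH1, e2, by linear_combination k4 - e2⟩
    · rw [h] at hH1
      have e1 : H (c, b, a) = 0 := by linear_combination k4 - hH1
      have e2 : H (b, c, a) = 0 := by linear_combination k5 - k1 - hH1
      exact ⟨k1, k6, by linear_combination k3 - e2, e2, hH1, e1⟩
    · rw [h] at hH1
      have e1 : H (c, a, b) = 0 := by linear_combination k4 - hH1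
      have e2 : H (b, c, a) = 0 := by linear_combination k5 - k1 - e1
      exact ⟨k1, k6, by linear_combination k3 - e2, e2, e1, hH1⟩
  funext w
  by_cases hw : wt3 w = wt3 (a, b, c)
  · obtain ⟨a1, b1, c1⟩ := w
    rcases wt3_perm a b c a1 b1 c1 hw with h | h | h | h | h | h <;> rw [h]
    · exact hall.1
    · exact hall.2.1
    · exact hall.2.2.1
    · exact hall.2.2.2.1
    · exact hall.2.2.2.2.1
    · exact hall.2.2.2.2.2
  · exact hHs w hw

/-- shape of a pair which is not full -/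
theorem nonfull_struct {V2 : Submodule k (W2 → k)} {V3 : Submodule k (W3 → k)}
    (h2 : (2 : k) ≠ 0) (hp : IsPair V2 V3) (hnf : ¬ Full V2 V3) :
    ∃ a b c : X, a ≠ b ∧ b ≠ c ∧ a ≠ c ∧ (∃ F ∈ V2, F (a, b) ≠ 0) ∧ (∃ F ∈ V2, F (b, c) ≠ 0) ∧
      (∃ F ∈ V2, F (c, a) ≠ 0) ∧ ∃ G ∈ V3, ∃ w1, wt3 w1 = wt3 (a, b, c) ∧ G w1 ≠ 0 := by
  unfold Full at hnf
  push Not at hnf
  obtain ⟨F, hF, hFs, hFV⟩ := hnf
  have hj : ∃ j, mask wt3 j F ∉ V3 := by
    by_contra hcon
    push Not at hcon
    exact hFV (mem_of_masks wt3 wt3_lt V3 F hcon)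
  obtain ⟨j, hj⟩ := hj
  have hGD : mask wt3 j F ∈ D3 V2 := stabT_D3 hp.t2 F hF j
  have hG0 : mask wt3 j F ≠ 0 := by
    intro h0
    apply hj
    rw [h0]
    exact V3.zero_mem
  obtain ⟨w0, hw0⟩ := Function.ne_iff.1 hG0
  have hw0j : wt3 w0 = j := by
    by_contra hne
    apply hw0
    simp only [mask, if_neg hne, Pi.zero_apply]
  have hFw0 : F w0 ≠ 0 := by
    intro h0
    apply hw0
    simp only [mask, if_pos hw0j, Pi.zero_apply, h0]
  have hsupp : w0 ∈ supp wt3 V3 := by
    by_contra hcon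
    exact hFw0 (hFs w0 hcon)
  obtain ⟨G1, hG1, w1, hw1, hG1w⟩ := hsupp
  have hG2 : mask wt3 j G1 ∈ V3 := hp.t3 G1 hG1 j
  have hw1j : wt3 w1 = j := by rw [hw1, hw0j]
  have hG2w : mask wt3 j G1 w1 ≠ 0 := by
    simp only [mask, if_pos hw1j]; exact hG1w
  set lam := mask wt3 j F w1 / mask wt3 j G1 w1 with hlam
  set H : W3 → k := mask wt3 j F - lam • mask wt3 j G1 with hHdef
  have hHD : H ∈ D3 V2 := (D3 V2).sub_mem hGD ((D3 V2).smul_mem _ (hp.le3 hG2))
  have hHw1 : H w1 = 0 := by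
    rw [hHdef, Pi.sub_apply, Pi.smul_apply, smul_eq_mul, hlam, div_mul_cancel₀ _ hG2w, sub_self]
  have hHnot : H ∉ V3 := by
    intro hH
    apply hj
    have : mask wt3 j F = H + lam • mask wt3 j G1 := by rw [hHdef]; abel
    rw [this]
    exact V3.add_mem hH (V3.smul_mem _ hG2)
  have hHs : ∀ w, wt3 w ≠ j → H w = 0 := by
    intro w hw
    simp only [hHdef, mask, Pi.sub_apply, Pi.smul_apply, if_neg hw, smul_zero, sub_zero]
  have key : ∀ a b c : X, wt3 (a, b, c) = j → ∃ K ∈ D3 V2, K (a, b, c) ≠ 0 := by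
    intro a b c habc
    by_contra hcon
    push Not at hcon
    have := vanish hcon (hp.le3 hG2) hHD (fun w hw => hHs w (by rw [← habc]; exact hw))
      (w1 := w1) (by rw [hw1j, habc]) hG2w hHw1
    exact hHnot (this ▸ V3.zero_mem)
  obtain ⟨a, b, c⟩ := w0
  obtain ⟨K1, hK1, hK1w⟩ := key a b c hw0j
  obtain ⟨K2, hK2, hK2w⟩ := key b c a (by rw [wt3_cyc]; exact hw0j)
  obtain ⟨K3, hK3, hK3w⟩ := key c a b (by rw [wt3_cyc']; exact hw0j)
  refine ⟨a, b, c, ?_, ?_, ?_, ⟨_, hK3.2 c, hK3w⟩, ⟨_, hK1.2 a, hK1w⟩, ⟨_, hK2.2 b, hK2w⟩,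
    G1, hG1, w1, hw1, hG1w⟩
  · rintro rfl
    exact hK3w (C3_diag h2 hK3.1 c a)
  · rintro rfl
    exact hK1w (C3_diag h2 hK1.1 a b)
  · rintro rfl
    exact hK2w (C3_diag h2 hK2.1 b a)

/-- a stable subspace of `C2` containing something at `u` contains every function of `C2` of the
same content -/
theorem mem_V2_of {V2 : Submodule k (W2 → k)} (hle : V2 ≤ C2 k) (hT : StabT wt2 V2)
    (hR : StabR rot2 V2) {F : W2 → k} (hF : F ∈ V2) {u : W2} (hFu : F u ≠ 0) {n : Fin 5}
    {x y : X} (hxy : wt2 (rot2^[(n : ℕ)] u) = wt2 (x, y)) {G : W2 → k} (hG : G ∈ C2 k)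
    (hGs : ∀ w, wt2 w ≠ wt2 (x, y) → G w = 0) : G ∈ V2 := by
  -- rotate F
  have hF1 : (fun w => F (rot2^[5 - (n : ℕ)] w)) ∈ V2 := hR.iter hF _
  set F1 : W2 → k := fun w => F (rot2^[5 - (n : ℕ)] w) with hF1def
  have hu : rot2^[5 - (n : ℕ)] (rot2^[(n : ℕ)] u) = u := by
    rw [← Function.iterate_add_apply]
    have : 5 - (n : ℕ) + n = 5 := by omega
    rw [this, rot2_five]
    rfl
  have hF1u : F1 (rot2^[(n : ℕ)] u) ≠ 0 := by
    simp only [hF1def, hu]; exact hFu
  have hF1xy : F1 (x, y) ≠ 0 := by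
    rcases hv : rot2^[(n : ℕ)] u with ⟨a', b'⟩
    rw [hv] at hxy hF1u
    rcases wt2_perm x y a' b' hxy with h | h
    · rw [h] at hF1u; exact hF1u
    · rw [h] at hF1u
      intro h0
      apply hF1u
      have := hle hF1 x y
      linear_combination this - h0
  have hm := hT F1 hF1 (wt2 (x, y))
  have : G = (G (x, y) / F1 (x, y)) • (fun w => if wt2 w = wt2 (x, y) then F1 w else 0) := by
    funext w
    simp only [Pi.smul_apply, smul_eq_mul]
    by_cases hw : wt2 w = wt2 (x, y)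
    · rw [if_pos hw]
      obtain ⟨a', b'⟩ := w
      rcases wt2_perm x y a' b' hw with h | h
      · rw [h]; field_simp
      · rw [h]
        have e1 := hG x y
        have e2 := hle hF1 x y
        have e3 : G (y, x) = - G (x, y) := by linear_combination e1
        have e4 : F1 (y, x) = - F1 (x, y) := by linear_combination e2
        rw [e3, e4]; field_simp
    · rw [if_neg hw, hGs w hw, mul_zero]
  rw [this]
  exact V2.smul_mem _ hm

theorem CP_le {V2 : Submodule k (W2 → k)} (hle : V2 ≤ C2 k) (hT : StabT wt2 V2)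
    (hR : StabR rot2 V2) {i : Fin 4} {a b c : X} (ht : tri i (a, b, c))
    (hab : ∃ F ∈ V2, F (a, b) ≠ 0) (hbc : ∃ F ∈ V2, F (b, c) ≠ 0)
    (hca : ∃ F ∈ V2, F (c, a) ≠ 0) : CP k i ≤ V2 := by
  intro G hG
  apply mem_of_masks wt2 wt2_lt
  intro j
  have hmC : mask wt2 j G ∈ CP k i := stabT_CP i G hG j
  by_cases h0 : mask wt2 j G = 0
  · rw [h0]; exact V2.zero_mem
  · obtain ⟨⟨x, y⟩, hw⟩ := Function.ne_iff.1 h0
    have hj : wt2 (x, y) = j := by
      by_contra hne
      apply hw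
      simp only [mask, if_neg hne, Pi.zero_apply]
    have hpT : pairT i (x, y) := by
      by_contra hcon
      exact hw (hmC.2 _ hcon)
    have hs : ∀ w, wt2 w ≠ wt2 (x, y) → mask wt2 j G w = 0 := by
      intro w hwne
      simp only [mask]
      rw [if_neg (fun h => hwne (h.trans hj.symm))]
    obtain ⟨n, h | h | h⟩ := pairT_cases i a b c ht x y hpT
    · obtain ⟨F, hF, hFu⟩ := hab
      exact mem_V2_of hle hT hR hF hFu h hmC.1 hs
    · obtain ⟨F, hF, hFu⟩ := hbc
      exact mem_V2_of hle hT hR hF hFu h hmC.1 hs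
    · obtain ⟨F, hF, hFu⟩ := hca
      exact mem_V2_of hle hT hR hF hFu h hmC.1 hs

end

theorem V3_ne_bot {k : Type} [Field k] {s : ℕ} {V2 : Submodule k (W2 → k)}
    {V3 : Submodule k (W3 → k)} {V4 : Submodule k (W4 → k)} (h : IsCfg s V2 V3 V4) :
    V3 ≠ ⊥ := by
  intro h0
  apply dV_ne_bot h.ne
  rw [eq_bot_iff, ← h0, dV_le_iff]
  intro F hF x
  exact (h.le4 hF).2 x

theorem combF : S_CombF := by
  intro p _ hp V2 V3 V4 h
  by_contra hnf
  have h2 := two_ne p hp
  obtain ⟨a, b, c, hab, hbc, hac, e1, e2, e3, -⟩ := nonfull_struct h2 h.pair hnf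
  obtain ⟨i, hi⟩ := tri_of_ne a b c hab hbc hac
  have hle := CP_le h.pair.le2 h.pair.t2 h.pair.r2 hi e1 e2 e3
  have f2 := Submodule.finrank_mono hle
  rw [finrank_CP h2] at f2
  have f3 := five_le3 h2 (h.pair.le3.trans fun F hF => hF.1) h.pair.t3 h.pair.r3 (V3_ne_bot h)
  have f4 := five_le4 h2 (h.le4.trans fun F hF => hF.1) h.t4 h.r4 h.ne
  have := h.dim
  omega

end Pool.Agent.W373.Unif
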