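import Pool.Agent.W373.Unif.CombFN

set_option autoImplicit false

namespace Pool.Agent.W373.Unif

/-- integer function of content `{a, b, c}` -/
def K1 (a b c : X) (w : W3) : ℤ :=
  if w = (a, b, c) then 1 else if w = (a, c, b) then -1 else if w = (b, c, a) then -1
  else if w = (b, a, c) then 1 else 0

theorem K1_rel1 : ∀ a b c : X, a ≠ b → b ≠ c → a ≠ c → ∀ x y z : X,
    K1 a b c (x, y, z) + K1 a b c (x, z, y) = 0 := by decide +kernel

theorem K1_rel2 : ∀ a b c : X, a ≠ b → b ≠ c → a ≠ c → ∀ x y z : X,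
    K1 a b c (x, y, z) + K1 a b c (y, z, x) + K1 a b c (z, x, y) = 0 := by decide +kernel

theorem K1_supp : ∀ a b c : X, ∀ w : W3, K1 a b c w ≠ 0 → wt3 w = wt3 (a, b, c) := by
  decide +kernel

section
variable {k : Type} [Field k]

theorem K1_mem {a b c : X} (hab : a ≠ b) (hbc : b ≠ c) (hac : a ≠ c) {i : Fin 4}
    (hi : tri i (a, b, c)) : (fun w => (K1 a b c w : k)) ∈ D3 (CP k i) := by
  refine ⟨⟨fun x y z => ?_, fun x y z => ?_⟩, fun x => ⟨fun y z => ?_, fun w hw => ?_⟩⟩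
  · have := congrArg (Int.cast (R := k)) (K1_rel1 a b c hab hbc hac x y z)
    push_cast at this
    exact this
  · have := congrArg (Int.cast (R := k)) (K1_rel2 a b c hab hbc hac x y z)
    push_cast at this
    exact this
  · have := congrArg (Int.cast (R := k)) (K1_rel1 a b c hab hbc hac x y z)
    push_cast at this
    exact this
  · have : K1 a b c (x, w) = 0 := by
      by_contra hne
      exact hw ⟨x, tri_wt (K1_supp a b c _ hne).symm hi⟩
    simp only [this, Int.cast_zero]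

theorem tri_of_rot_wt {i : Fin 4} {w u : W3} (n : ℕ) (h : wt3 (rot3^[n] w) = wt3 u)
    (hu : tri i u) : tri i w := by
  have h1 : tri i (rot3^[n] w) := tri_wt h.symm hu
  clear h
  induction n generalizing w with
  | zero => exact h1
  | succ n ih =>
    rw [Function.iterate_succ_apply] at h1
    exact (tri_rot i w).1 (ih h1)

/-- a stable space of dimension five with something of content `{a,b,c}` is supported on `tri i` -/
theorem supp_tri {V3 : Submodule k (W3 → k)} (hT : StabT wt3 V3) (hR : StabR rot3 V3)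
    {G : W3 → k} (hG : G ∈ V3) {w1 : W3} (hw1 : G w1 ≠ 0) {i : Fin 4} (hi : tri i w1)
    (hne : w1 ≠ (5, 5, 5)) (h5 : Module.finrank k V3 = 5) {H : W3 → k} (hH : H ∈ V3) {w : W3}
    (hw : ¬ tri i w) : H w = 0 := by
  obtain ⟨c, hc⟩ := exists_coeff rot3_five hT hR hG hw1 (wt3_ne w1 hne) h5 hH
  rw [hc]
  apply Finset.sum_eq_zero
  intro j _
  have : ¬ (wt3 (rot3^[(j : ℕ)] w) = wt3 w1) := fun h => hw (tri_of_rot_wt _ h hi)
  simp only [mask, if_neg this, mul_zero]

end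

theorem combN_mp (p : ℕ) [Fact p.Prime] (hp : 5 < p)
    (V2 : Submodule (ZMod p) (W2 → ZMod p)) (V3 : Submodule (ZMod p) (W3 → ZMod p))
    (V4 : Submodule (ZMod p) (W4 → ZMod p)) (h : IsCfg 4 V2 V3 V4) (hnf : ¬ Full V2 V3) :
    ∃ i : Fin 4, V4 ≤ DT (ZMod p) i ∧ StabT wt4 V4 ∧ StabR rot4 V4 ∧
      Module.finrank (ZMod p) V4 = 5 ∧ Module.finrank (ZMod p) (dV V4) = 5 ∧
      V2 = CP (ZMod p) i ∧ V3 = dV V4 := by
  have h2 := two_ne p hp
  obtain ⟨a, b, c, hab, hbc, hac, e1, e2, e3, G, hG, w1, hw1, hGw⟩ :=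
    nonfull_struct h2 h.pair hnf
  obtain ⟨i, hi⟩ := tri_of_ne a b c hab hbc hac
  have hle := CP_le h.pair.le2 h.pair.t2 h.pair.r2 hi e1 e2 e3
  have f2 := Submodule.finrank_mono hle
  rw [finrank_CP h2] at f2
  have hC3 : V3 ≤ C3 (ZMod p) := h.pair.le3.trans fun F hF => hF.1
  have f3 := five_le3 h2 hC3 h.pair.t3 h.pair.r3 (V3_ne_bot h)
  have f4 := five_le4 h2 (h.le4.trans fun F hF => hF.1) h.t4 h.r4 h.ne
  have hd := h.dim
  have hV2 : CP (ZMod p) i = V2 := by
    apply Submodule.eq_of_le_of_finrank_le hle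
    rw [finrank_CP h2]; omega
  have hdle : dV V4 ≤ V3 := dV_le_iff.2 fun F hF x => (h.le4 hF).2 x
  have fd := five_le3 h2 (hdle.trans hC3) (stabT_dV h.t4) (stabR_dV h.r4) (dV_ne_bot h.ne)
  have hV3 : dV V4 = V3 := by
    apply Submodule.eq_of_le_of_finrank_le hdle
    omega
  have hi1 : tri i w1 := tri_wt hw1.symm hi
  have hne1 : w1 ≠ (5, 5, 5) := by
    rintro rfl
    exact (tri_ne i 5 5 5 hi1).1 rfl
  refine ⟨i, fun F hF => ⟨(h.le4 hF).1, fun x w hw => ?_⟩, h.t4, h.r4, by omega, ?_, hV2.symm,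
    hV3.symm⟩
  · exact supp_tri h.pair.t3 h.pair.r3 hG hGw hi1 hne1 (by omega) ((h.le4 hF).2 x) hw
  · rw [hV3]; omega

theorem combN_mpr (p : ℕ) [Fact p.Prime] (hp : 5 < p)
    (V4 : Submodule (ZMod p) (W4 → ZMod p)) (i : Fin 4) (hD : V4 ≤ DT (ZMod p) i)
    (hT : StabT wt4 V4) (hR : StabR rot4 V4) (h5 : Module.finrank (ZMod p) V4 = 5)
    (hd5 : Module.finrank (ZMod p) (dV V4) = 5) :
    IsCfg 4 (CP (ZMod p) i) (dV V4) V4 ∧ ¬ Full (CP (ZMod p) i) (dV V4) := by
  have h2 := two_ne p hp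
  have hne : V4 ≠ ⊥ := by
    rintro rfl
    rw [finrank_bot] at h5
    omega
  have hle3 : dV V4 ≤ D3 (CP (ZMod p) i) := by
    rw [dV_le_iff]
    intro F hF x
    refine ⟨(hD hF).1.1 x, fun y => ⟨fun a b => ?_, fun w hw => ?_⟩⟩
    · exact ((hD hF).1.1 x).1 y a b
    · exact (hD hF).2 x (y, w) fun ht => hw ⟨y, ht⟩
  have hpair : IsPair (CP (ZMod p) i) (dV V4) :=
    ⟨fun F hF => hF.1, stabT_CP i, stabR_CP i, hle3, stabT_dV hT, stabR_dV hR⟩
  have hcfg : IsCfg 4 (CP (ZMod p) i) (dV V4) V4 := by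
    refine ⟨hpair, fun F hF => ⟨(hD hF).1, fun x => ?_⟩, hT, hR, hne, ?_⟩
    · exact Submodule.subset_span ⟨F, hF, x, rfl⟩
    · rw [finrank_CP h2, h5, hd5]
  refine ⟨hcfg, fun hfull => ?_⟩
  obtain ⟨G, hG, hG0⟩ := Submodule.exists_mem_ne_zero_of_ne_bot (dV_ne_bot hne)
  obtain ⟨w1, hw1⟩ := Function.ne_iff.1 hG0
  have hi1 : tri i w1 := by
    by_contra hcon
    apply hw1
    have hs : dV V4 ≤ { carrier := {H : W3 → ZMod p | H w1 = 0},
                        add_mem' := fun {a b} ha hb => by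
                          simp only [Set.mem_setOf_eq, Pi.add_apply] at *; rw [ha, hb, add_zero],
                        zero_mem' := rfl,
                        smul_mem' := fun c a ha => by
                          simp only [Set.mem_setOf_eq, Pi.smul_apply] at *; rw [ha, smul_zero] } := by
      rw [dV_le_iff]
      intro F hF x
      exact (hD hF).2 x w1 hcon
    exact hs hG
  obtain ⟨a, b, c⟩ := w1
  obtain ⟨hab, hbc, hac⟩ := tri_ne i a b c hi1
  have hne1 : (a, b, c) ≠ ((5, 5, 5) : W3) := by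
    intro h
    apply hab
    simp only [Prod.mk.injEq] at h
    rw [h.1, h.2.1]
  have hmem : ∀ a' b' c' : X, a' ≠ b' → b' ≠ c' → a' ≠ c' → wt3 (a', b', c') = wt3 (a, b, c) →
      (fun w => (K1 a' b' c' w : ZMod p)) ∈ dV V4 := by
    intro a' b' c' h1 h3 h4 hwt
    apply hfull
    · exact K1_mem h1 h3 h4 (tri_wt hwt.symm hi1)
    · intro w hw
      have : K1 a' b' c' w = 0 := by
        by_contra hcon
        exact hw ⟨G, hG, (a, b, c), by rw [K1_supp _ _ _ _ hcon, hwt], hw1⟩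
      simp only [this, Int.cast_zero]
  have hm1 := hmem a b c hab hbc hac rfl
  have hm2 := hmem b c a hbc (Ne.symm hac) (Ne.symm hab) (wt3_cyc a b c)
  obtain ⟨c1, hc1⟩ := exists_coeff rot3_five (stabT_dV hT) (stabR_dV hR) hG hw1
    (wt3_ne _ hne1) hd5 hm1
  obtain ⟨c2, hc2⟩ := exists_coeff rot3_five (stabT_dV hT) (stabR_dV hR) hG hw1
    (wt3_ne _ hne1) hd5 hm2
  -- evaluate on words of the content of (a, b, c)
  have hev : ∀ w : W3, wt3 w = wt3 (a, b, c) → ∀ (cc : Fin 5 → ZMod p),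
      (∑ j : Fin 5, cc j * mask wt3 (wt3 (a, b, c)) G (rot3^[(j : ℕ)] w)) = cc 0 * G w := by
    intro w hw cc
    have hwne : w ≠ (5, 5, 5) := by
      rintro rfl
      have := tri_wt hw.symm hi1
      exact (tri_ne i 5 5 5 this).1 rfl
    rw [Finset.sum_eq_single 0]
    · simp [mask, hw]
    · intro j _ hj
      have h1 := wt3_ne w hwne j hj
      have : ¬ (wt3 (rot3^[(j : ℕ)] w) = wt3 (a, b, c)) := fun h => h1 (h.trans hw.symm)
      simp only [mask, if_neg this, mul_zero]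
    · intro h; exact absurd (Finset.mem_univ _) h
  have v1 := congrFun hc1 (a, b, c)
  have v2 := congrFun hc2 (a, b, c)
  have v3 := congrFun hc2 (b, c, a)
  rw [hev _ rfl] at v1 v2
  rw [hev _ (wt3_cyc a b c)] at v3
  have n1 : K1 a b c (a, b, c) = 1 := by simp [K1]
  have n2 : K1 b c a (a, b, c) = 0 := by
    simp only [K1, Prod.mk.injEq]
    simp [hab, hbc, hac, Ne.symm hac, Ne.symm hab]
  have n3 : K1 b c a (b, c, a) = 1 := by simp [K1]
  rw [n1] at v1
  rw [n2] at v2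
  rw [n3] at v3
  have hGw : G (a, b, c) ≠ 0 := hw1
  have hc20 : c2 0 = 0 := by
    push_cast at v2
    exact (mul_eq_zero.1 v2.symm).resolve_right hGw
  rw [hc20] at v3
  simp at v3

theorem combN : S_CombN := by
  intro p _ hp V2 V3 V4
  constructor
  · rintro ⟨h, hnf⟩
    exact combN_mp p hp V2 V3 V4 h hnf
  · rintro ⟨i, hD, hT, hR, h5, hd5, rfl, rfl⟩
    exact combN_mpr p hp V4 i hD hT hR h5 hd5

end Pool.Agent.W373.Unif
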