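import Mathlib

/-!
# MP_424f45_al (S01314): graded ideal zeta functions of free nilpotent Lie rings are not uniform

Definitions shared by all parts (helper373).  Letters: `0,...,4` rotate, `5` is fixed.
-/

set_option autoImplicit false

namespace Pool.Agent.W373.Unif

/-! ## letters, words, rotation, weight -/

/-- letters -/
abbrev X := Fin 6
/-- words of length two -/
abbrev W2 := X × X
/-- words of length three -/
abbrev W3 := X × W2
/-- words of length four -/
abbrev W4 := X × W3

/-- the rotation of the letters `0,...,4`, the letter `5` is fixed -/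
def rot : X → X := ![1, 2, 3, 4, 0, 5]
/-- rotation of words of length two -/
def rot2 (w : W2) : W2 := (rot w.1, rot w.2)
/-- rotation of words of length three -/
def rot3 (w : W3) : W3 := (rot w.1, rot2 w.2)
/-- rotation of words of length four -/
def rot4 (w : W4) : W4 := (rot w.1, rot3 w.2)

/-- weight of a letter; the weight of a word of length at most four encodes its content
(base five digits) and is smaller than `5 ^ 6` -/
def wt (a : X) : ℕ := 5 ^ (a : ℕ)
/-- weight of a word of length two -/
def wt2 (w : W2) : ℕ := wt w.1 + wt w.2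
/-- weight of a word of length three -/
def wt3 (w : W3) : ℕ := wt w.1 + wt2 w.2
/-- weight of a word of length four -/
def wt4 (w : W4) : ℕ := wt w.1 + wt3 w.2

/-! ## functions on words: duals of the degree 2, 3, 4 parts of the free Lie algebra -/

section Fun
variable (k : Type) [CommRing k]

/-- dual of the degree two part -/
def C2 : Submodule k (W2 → k) where
  carrier := {F | ∀ a b : X, F (a, b) + F (b, a) = 0}
  add_mem' := by
    intro F G hF hG a b
    have h1 := hF a b
    have h2 := hG a b
    simp only [Pi.add_apply]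
    linear_combination h1 + h2
  zero_mem' := by intro a b; simp
  smul_mem' := by
    intro c F hF a b
    have h1 := hF a b
    simp only [Pi.smul_apply, smul_eq_mul]
    linear_combination c * h1

/-- dual of the degree three part -/
def C3 : Submodule k (W3 → k) where
  carrier := {F | (∀ a b c : X, F (a, b, c) + F (a, c, b) = 0) ∧
    ∀ a b c : X, F (a, b, c) + F (b, c, a) + F (c, a, b) = 0}
  add_mem' := by
    intro F G hF hG
    refine ⟨fun a b c => ?_, fun a b c => ?_⟩
    · have h1 := hF.1 a b c
      have h2 := hG.1 a b c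
      simp only [Pi.add_apply]
      linear_combination h1 + h2
    · have h1 := hF.2 a b c
      have h2 := hG.2 a b c
      simp only [Pi.add_apply]
      linear_combination h1 + h2
  zero_mem' := by constructor <;> intros <;> simp
  smul_mem' := by
    intro t F hF
    refine ⟨fun a b c => ?_, fun a b c => ?_⟩
    · have h1 := hF.1 a b c
      simp only [Pi.smul_apply, smul_eq_mul]
      linear_combination t * h1
    · have h1 := hF.2 a b c
      simp only [Pi.smul_apply, smul_eq_mul]
      linear_combination t * h1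

/-- dual of the degree four part -/
def C4 : Submodule k (W4 → k) where
  carrier := {F | (∀ x : X, (fun w : W3 => F (x, w)) ∈ C3 k) ∧
    ∀ a b c d : X, F (a, b, c, d) - F (b, a, c, d) + F (c, d, a, b) - F (d, c, a, b) = 0}
  add_mem' := by
    intro F G hF hG
    refine ⟨fun x => (C3 k).add_mem (hF.1 x) (hG.1 x), fun a b c d => ?_⟩
    have h1 := hF.2 a b c d
    have h2 := hG.2 a b c d
    simp only [Pi.add_apply]
    linear_combination h1 + h2
  zero_mem' := by
    refine ⟨fun x => (C3 k).zero_mem, fun a b c d => by simp⟩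
  smul_mem' := by
    intro t F hF
    refine ⟨fun x => (C3 k).smul_mem t (hF.1 x), fun a b c d => ?_⟩
    have h1 := hF.2 a b c d
    simp only [Pi.smul_apply, smul_eq_mul]
    linear_combination t * h1

variable {k}

/-- stable under the torus: all weight components stay in `V` -/
def StabT {W : Type} (wt : W → ℕ) (V : Submodule k (W → k)) : Prop :=
  ∀ F ∈ V, ∀ j : ℕ, (fun w => if wt w = j then F w else 0) ∈ V

/-- stable under the rotation -/
def StabR {W : Type} (r : W → W) (V : Submodule k (W → k)) : Prop :=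
  ∀ F ∈ V, (fun w => F (r w)) ∈ V

/-- the functions in `C3` all of whose left derivatives are in `V2` -/
def D3 (V2 : Submodule k (W2 → k)) : Submodule k (W3 → k) where
  carrier := {F | F ∈ C3 k ∧ ∀ x : X, (fun w : W2 => F (x, w)) ∈ V2}
  add_mem' := fun hF hG => ⟨(C3 k).add_mem hF.1 hG.1, fun x => V2.add_mem (hF.2 x) (hG.2 x)⟩
  zero_mem' := ⟨(C3 k).zero_mem, fun _ => V2.zero_mem⟩
  smul_mem' := fun t _ hF => ⟨(C3 k).smul_mem t hF.1, fun x => V2.smul_mem t (hF.2 x)⟩

/-- the functions in `C4` all of whose left derivatives are in `V3` -/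
def D4 (V3 : Submodule k (W3 → k)) : Submodule k (W4 → k) where
  carrier := {F | F ∈ C4 k ∧ ∀ x : X, (fun w : W3 => F (x, w)) ∈ V3}
  add_mem' := fun hF hG => ⟨(C4 k).add_mem hF.1 hG.1, fun x => V3.add_mem (hF.2 x) (hG.2 x)⟩
  zero_mem' := ⟨(C4 k).zero_mem, fun _ => V3.zero_mem⟩
  smul_mem' := fun t _ hF => ⟨(C4 k).smul_mem t hF.1, fun x => V3.smul_mem t (hF.2 x)⟩

/-- the stable pairs `(V2, V3)` -/
structure IsPair (V2 : Submodule k (W2 → k)) (V3 : Submodule k (W3 → k)) : Prop where
  le2 : V2 ≤ C2 k
  t2 : StabT wt2 V2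
  r2 : StabR rot2 V2
  le3 : V3 ≤ D3 V2
  t3 : StabT wt3 V3
  r3 : StabR rot3 V3

/-- the stable configurations `(V2, V3, V4)` of total dimension `5 * s` with `V4 ≠ 0` -/
structure IsCfg (s : ℕ) (V2 : Submodule k (W2 → k)) (V3 : Submodule k (W3 → k))
    (V4 : Submodule k (W4 → k)) : Prop where
  pair : IsPair V2 V3
  le4 : V4 ≤ D4 V3
  t4 : StabT wt4 V4
  r4 : StabR rot4 V4
  ne : V4 ≠ ⊥
  dim : Module.finrank k V2 + Module.finrank k V3 + Module.finrank k V4 = 5 * s

/-- content support of a space of functions: all words `w` such that some word of the same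
content (weight) occurs in some function of `V` -/
def supp {W : Type} (wt : W → ℕ) (V : Submodule k (W → k)) : Set W :=
  {w | ∃ F ∈ V, ∃ w', wt w' = wt w ∧ F w' ≠ 0}

/-- `V3` is full over `V2`: it is the space of all functions in `D3 V2` supported on its
content support -/
def Full (V2 : Submodule k (W2 → k)) (V3 : Submodule k (W3 → k)) : Prop :=
  ∀ F ∈ D3 V2, (∀ w, w ∉ supp wt3 V3 → F w = 0) → F ∈ V3

/-- the span of all left derivatives of the functions in `V4` -/
def dV (V4 : Submodule k (W4 → k)) : Submodule k (W3 → k) :=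
  Submodule.span k {G | ∃ F ∈ V4, ∃ x : X, G = fun w : W3 => F (x, w)}

end Fun

/-- number of configurations of total dimension `5 * s` over `ZMod p` -/
noncomputable def cfgCount (p : ℕ) [Fact p.Prime] (s : ℕ) : ℕ :=
  Nat.card {V : Submodule (ZMod p) (W2 → ZMod p) × Submodule (ZMod p) (W3 → ZMod p) ×
    Submodule (ZMod p) (W4 → ZMod p) // IsCfg s V.1 V.2.1 V.2.2}

/-! ## the four types of triples of distinct letters -/

/-- base triples of the four rotation orbits of three element sets of letters -/
def base (i : Fin 4) : W3 := (![(5, 0, 1), (5, 0, 2), (0, 1, 2), (0, 1, 3)] : Fin 4 → W3) i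

/-- words of length three whose content is a rotation of the `i`-th base triple -/
def tri (i : Fin 4) (w : W3) : Prop := ∃ j : Fin 5, wt3 w = wt3 (rot3^[(j : ℕ)] (base i))

instance (i : Fin 4) (w : W3) : Decidable (tri i w) := by unfold tri; infer_instance

/-- words of length two whose content occurs in a triple of type `i` -/
def pairT (i : Fin 4) (w : W2) : Prop := ∃ a : X, tri i (a, w)

instance (i : Fin 4) (w : W2) : Decidable (pairT i w) := by unfold pairT; infer_instance

/-- the functions of `C2` supported on the pairs of type `i` -/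
def CP (k : Type) [CommRing k] (i : Fin 4) : Submodule k (W2 → k) where
  carrier := {F | F ∈ C2 k ∧ ∀ w, ¬ pairT i w → F w = 0}
  add_mem' := fun hF hG => ⟨(C2 k).add_mem hF.1 hG.1, fun w hw => by
    simp only [Pi.add_apply, hF.2 w hw, hG.2 w hw, add_zero]⟩
  zero_mem' := ⟨(C2 k).zero_mem, fun _ _ => rfl⟩
  smul_mem' := fun t _ hF => ⟨(C2 k).smul_mem t hF.1, fun w hw => by
    simp only [Pi.smul_apply, hF.2 w hw, smul_zero]⟩

/-- the functions of `C4` all of whose left derivatives are supported on words of type `i` -/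
def DT (k : Type) [CommRing k] (i : Fin 4) : Submodule k (W4 → k) where
  carrier := {F | F ∈ C4 k ∧ ∀ x w, ¬ tri i w → F (x, w) = 0}
  add_mem' := fun hF hG => ⟨(C4 k).add_mem hF.1 hG.1, fun x w hw => by
    simp only [Pi.add_apply, hF.2 x w hw, hG.2 x w hw, add_zero]⟩
  zero_mem' := ⟨(C4 k).zero_mem, fun _ _ _ => rfl⟩
  smul_mem' := fun t _ hF => ⟨(C4 k).smul_mem t hF.1, fun x w hw => by
    simp only [Pi.smul_apply, hF.2 x w hw, smul_zero]⟩

/-! ## integer linear systems -/

/-- solution space over `k` of an integer linear system -/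
def solZ {ι W : Type} [Fintype W] (A : ι → W → ℤ) (k : Type) [CommRing k] :
    Submodule k (W → k) where
  carrier := {F | ∀ i, ∑ w, (A i w : k) * F w = 0}
  add_mem' := by
    intro F G hF hG i
    simp only [Pi.add_apply, mul_add, Finset.sum_add_distrib, hF i, hG i, add_zero]
  zero_mem' := by intro i; simp
  smul_mem' := by
    intro t F hF i
    have : ∑ w, (A i w : k) * (t • F) w = t * ∑ w, (A i w : k) * F w := by
      rw [Finset.mul_sum]
      exact Finset.sum_congr rfl fun w _ => by simp only [Pi.smul_apply, smul_eq_mul]; ring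
    rw [this, hF i, mul_zero]

/-! ## the Lie side -/

section Lie
variable {R L : Type} [CommRing R] [LieRing L] [LieAlgebra R L]

/-- right normed brackets of length two -/
def b2 (x : X → L) (w : W2) : L := ⁅x w.1, x w.2⁆
/-- right normed brackets of length three -/
def b3 (x : X → L) (w : W3) : L := ⁅x w.1, b2 x w.2⁆
/-- right normed brackets of length four -/
def b4 (x : X → L) (w : W4) : L := ⁅x w.1, b3 x w.2⁆

variable (R)

/-- the degree `i + 1` part, as in the frozen statement -/
def gr (x : X → L) (i : ℕ) : Submodule R L :=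
  Submodule.span R {y : L | ∃ (j : X) (w : List X), w.length = i ∧
    y = List.foldr (fun (k : X) (a : L) => ⁅x k, a⁆) (x j) w}

/-- graded ideals of index `n`, as in the frozen statement -/
def GI (x : X → L) (n : ℕ) : Set (LieIdeal R L) :=
  {I | (I : Submodule R L) = (⨆ i : ℕ, ((I : Submodule R L) ⊓ gr R x i)) ∧
    Nat.card (L ⧸ (I : Submodule R L)) = n}

/-- span of all right normed words of length at most four and weight `j` -/
def wsp (x : X → L) (j : ℕ) : Submodule R L :=
  Submodule.span R ({y | ∃ a : X, wt a = j ∧ y = x a} ∪ {y | ∃ w : W2, wt2 w = j ∧ y = b2 x w} ∪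
    {y | ∃ w : W3, wt3 w = j ∧ y = b3 x w} ∪ {y | ∃ w : W4, wt4 w = j ∧ y = b4 x w})

variable {R}

/-- multigraded -/
def MG (x : X → L) (I : LieIdeal R L) : Prop :=
  ∀ y ∈ I, y ∈ ⨆ j : ℕ, ((I : Submodule R L) ⊓ wsp R x j)

/-- stable under the rotation automorphism -/
def RotSt (x : X → L) (I : LieIdeal R L) : Prop :=
  ∀ f : L →ₗ⁅R⁆ L, (∀ a, f (x a) = x (rot a)) → ∀ y ∈ I, f y ∈ I

/-- the multigraded rotation stable ideals of index `n` which do not contain the last term
`lcs 3` of the lower central series -/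
def FixedIdeals (x : X → L) (n : ℕ) : Set (LieIdeal R L) :=
  {I | MG x I ∧ RotSt x I ∧ Nat.card (L ⧸ (I : Submodule R L)) = n ∧
    ¬ (LieModule.lowerCentralSeries R L L 3 ≤ I)}

end Lie

/-- Coefficient functionals on a nilpotent Lie algebra: what we need about the free nilpotent Lie
algebra of class four on six generators.  `cf1`, ..., `cf4` are the coefficients of the words of
length 1, ..., 4 in the associative expansion. -/
structure Model (R L : Type) [CommRing R] [LieRing L] [LieAlgebra R L] (x : X → L) where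
  cf1 : L →ₗ[R] (X → R)
  cf2 : L →ₗ[R] (W2 → R)
  cf3 : L →ₗ[R] (W3 → R)
  cf4 : L →ₗ[R] (W4 → R)
  cf1_x : ∀ a, cf1 (x a) = Pi.single a 1
  cf1_b2 : ∀ w, cf1 (b2 x w) = 0
  cf1_b3 : ∀ w, cf1 (b3 x w) = 0
  cf1_b4 : ∀ w, cf1 (b4 x w) = 0
  cf2_x : ∀ a, cf2 (x a) = 0
  cf2_b2 : ∀ a b, cf2 (b2 x (a, b)) = Pi.single (a, b) 1 - Pi.single (b, a) 1
  cf2_b3 : ∀ w, cf2 (b3 x w) = 0
  cf2_b4 : ∀ w, cf2 (b4 x w) = 0
  cf3_x : ∀ a, cf3 (x a) = 0
  cf3_b2 : ∀ w, cf3 (b2 x w) = 0
  cf3_b3 : ∀ a b c, cf3 (b3 x (a, b, c)) = Pi.single (a, b, c) 1 - Pi.single (a, c, b) 1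
    - Pi.single (b, c, a) 1 + Pi.single (c, b, a) 1
  cf3_b4 : ∀ w, cf3 (b4 x w) = 0
  cf4_x : ∀ a, cf4 (x a) = 0
  cf4_b2 : ∀ w, cf4 (b2 x w) = 0
  cf4_b3 : ∀ w, cf4 (b3 x w) = 0
  cf4_b4 : ∀ a b c d, cf4 (b4 x (a, b, c, d)) = Pi.single (a, b, c, d) 1
    - Pi.single (a, b, d, c) 1 - Pi.single (a, c, d, b) 1 + Pi.single (a, d, c, b) 1
    - Pi.single (b, c, d, a) 1 + Pi.single (b, d, c, a) 1 + Pi.single (c, d, b, a) 1
    - Pi.single (d, c, b, a) 1
  /-- the words span -/
  span : ∀ y : L, y ∈ Submodule.span R (Set.range x ∪ Set.range (b2 x) ∪ Set.range (b3 x) ∪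
    Set.range (b4 x))
  /-- words of length five vanish -/
  nil : ∀ a w, ⁅x a, b4 x w⁆ = 0
  /-- the last term of the lower central series is spanned by the words of length four -/
  lcs3 : (LieModule.lowerCentralSeries R L L 3 : Submodule R L) =
    Submodule.span R (Set.range (b4 x))
  /-- homomorphisms may be prescribed on the generators -/
  lift : (X → L) → (L →ₗ⁅R⁆ L)
  lift_x : ∀ f a, lift f (x a) = f a

end Pool.Agent.W373.Unif
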